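import Pool.Agent.U642.DS.Rig

set_option autoImplicit false
set_option linter.unusedVariables false

/-! # Dense sets of integers, and sparse sets (helper642) -/

namespace Pool.Agent.U642.DS

open Finset Filter Pool.Agent.H256R2.SC

open scoped Classical

theorem KB_card (y : ℝ) (S : Finset ℕ) (J L : ℕ) (hy : 2 ≤ y) (h2 : 2 ∉ S) :
    (KB y S J L).card ≤ J * (2 * ((Icc 1 L).filter (fun m => ∀ p : ℕ, p.Prime → (p : ℝ) ≤ y →
      p ∉ S → ¬ p ∣ m)).card) := by
  set R := (Icc 1 L).filter (fun m => ∀ p : ℕ, p.Prime → (p : ℝ) ≤ y → p ∉ S → ¬ p ∣ m) with hR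
  have h1 : KB y S J L ⊆ (Icc 1 J) ×ˢ (R.image (fun m : ℕ => (m : ℤ)) ∪
      R.image (fun m : ℕ => -(m : ℤ))) := by
    rintro ⟨j, h⟩ hk
    unfold KB at hk
    rw [mem_filter, mem_product, mem_Icc, mem_Icc] at hk
    obtain ⟨⟨⟨a1, a2⟩, a3, a4⟩, a5⟩ := hk
    simp only at a1 a2 a3 a4 a5
    rw [mem_product, mem_Icc]
    refine ⟨⟨a1, a2⟩, ?_⟩
    have hh : h ≠ 0 := by
      intro h0
      apply a5 2 Nat.prime_two (by push_cast; exact hy) h2
      rw [h0]
      exact dvd_zero _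
    have hm : h.natAbs ∈ R := by
      rw [hR, mem_filter, mem_Icc]
      refine ⟨⟨by omega, by omega⟩, ?_⟩
      intro p hp hpy hpS hd
      apply a5 p hp hpy hpS
      exact Int.natCast_dvd.mpr hd
    simp only
    rw [mem_union, mem_image, mem_image]
    rcases lt_or_gt_of_ne hh with hneg | hpos
    · right
      exact ⟨h.natAbs, hm, by omega⟩
    · left
      exact ⟨h.natAbs, hm, by omega⟩
  refine (card_le_card h1).trans ?_
  rw [card_product, Nat.card_Icc, Nat.add_sub_cancel]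
  apply Nat.mul_le_mul_left
  refine (card_union_le _ _).trans ?_
  have h3 := card_image_le (s := R) (f := fun m : ℕ => (m : ℤ))
  have h4 := card_image_le (s := R) (f := fun m : ℕ => -(m : ℤ))
  omega

/-- eventual facts for the choice of the parameters -/
theorem ev_par (c : ℝ) (hc : 0 < c) (J : ℕ) (y₀ : ℝ) : ∃ X₀ : ℝ, ∀ X : ℝ, X₀ ≤ X →
    ∀ δ : ℝ, δ ≤ 1 → Real.log X * Real.log (Real.log X) ≤ δ * ff X →
      1 < X ∧ y₀ ≤ Real.log X / 10 ∧ 2 ≤ Real.log X / 10 ∧ (J : ℝ) + 2 ≤ (Real.log (Real.log X / 10)) ^ 2 ∧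
      2 ≤ c * (δ * ff X) ∧
      Real.log X / 10 ≤ (⌊c * (δ * ff X)⌋₊ : ℕ) ∧
      ((⌊c * (δ * ff X)⌋₊ : ℕ) : ℝ) ≤ Real.log X / 10 * (Real.log (Real.log X / 10)) ^ 2 ∧
      ((⌊c * (δ * ff X)⌋₊ : ℕ) : ℝ) ≤ (Real.log X) ^ 2 ∧
      0 < Real.log (Real.log X / 10) ∧ 0 < Real.log (Real.log (Real.log (Real.log X / 10))) ∧
      1 / Real.log (Real.log X) ≤ δ ∧ 4 ≤ Real.log (Real.log X) ∧ 0 < δ ∧
      (Real.log (Real.log (Real.log X / 10))) ^ 2 * (4 * ff X) ≤
        (Real.log X / 10) * 40 * 4 * ((Real.log (Real.log X / 10)) ^ 2 *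
          Real.log (Real.log (Real.log (Real.log X / 10)))) * 2 := by
  have key : ∀ᶠ X : ℝ in atTop, ∀ δ : ℝ, δ ≤ 1 → Real.log X * Real.log (Real.log X) ≤ δ * ff X →
      1 < X ∧ y₀ ≤ Real.log X / 10 ∧ 2 ≤ Real.log X / 10 ∧ (J : ℝ) + 2 ≤ (Real.log (Real.log X / 10)) ^ 2 ∧
      2 ≤ c * (δ * ff X) ∧
      Real.log X / 10 ≤ (⌊c * (δ * ff X)⌋₊ : ℕ) ∧
      ((⌊c * (δ * ff X)⌋₊ : ℕ) : ℝ) ≤ Real.log X / 10 * (Real.log (Real.log X / 10)) ^ 2 ∧
      ((⌊c * (δ * ff X)⌋₊ : ℕ) : ℝ) ≤ (Real.log X) ^ 2 ∧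
      0 < Real.log (Real.log X / 10) ∧ 0 < Real.log (Real.log (Real.log (Real.log X / 10))) ∧
      1 / Real.log (Real.log X) ≤ δ ∧ 4 ≤ Real.log (Real.log X) ∧ 0 < δ ∧
      (Real.log (Real.log (Real.log X / 10))) ^ 2 * (4 * ff X) ≤
        (Real.log X / 10) * 40 * 4 * ((Real.log (Real.log X / 10)) ^ 2 *
          Real.log (Real.log (Real.log (Real.log X / 10)))) * 2 := by
    filter_upwards [eventually_gt_atTop (1 : ℝ), t1.eventually (eventually_ge_atTop (10 * |y₀|)),
      t1.eventually (eventually_ge_atTop 20),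
      t1.eventually ev_log_sq, t2.eventually (eventually_ge_atTop (2 * Real.log 10)),
      t2.eventually (eventually_ge_atTop 10), t2.eventually (eventually_ge_atTop (2 * (J + 2 : ℝ))),
      t2.eventually (eventually_ge_atTop (1 / c)), t2.eventually (eventually_ge_atTop (2 / c)),
      t3.eventually (eventually_ge_atTop (40 * c)),
      t3.eventually (eventually_ge_atTop 2), t3.eventually (ev_log one_pos),
      t4.eventually (eventually_ge_atTop 2)] with X e0 e1 e1' e2 e3 e3' e3J e3c e3c2 e5 e5' e6 e7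
    intro δ hδ1 hδf
    set l1 := Real.log X with hl1
    set l2 := Real.log l1 with hl2
    set l3 := Real.log l2 with hl3
    set l4 := Real.log l3 with hl4
    have hff : ff X = l1 * l2 ^ 2 * l4 / l3 ^ 2 := rfl
    have hl1p : 0 < l1 := by linarith
    have hl2p : 0 < l2 := by linarith
    have hl3p : 0 < l3 := by linarith
    have hl4p : 0 < l4 := by linarith
    have hffpos : 0 < ff X := by rw [hff]; positivity
    have hlog10 : 0 < Real.log 10 := Real.log_pos (by norm_num)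
    have hlog2 : Real.log 2 < 0.7 := by have := Real.log_two_lt_d9; linarith
    have hδ0 : 0 < δ := by
      by_contra hc0
      push Not at hc0
      have : δ * ff X ≤ 0 := mul_nonpos_of_nonpos_of_nonneg hc0 hffpos.le
      have : 0 < l1 * l2 := by positivity
      linarith
    -- the logarithms of `y`
    have y1 : Real.log (l1 / 10) = l2 - Real.log 10 := Real.log_div hl1p.ne' (by norm_num)
    have y2 : l2 / 2 ≤ Real.log (l1 / 10) := by rw [y1]; linarith
    have y2' : Real.log (l1 / 10) ≤ l2 := by rw [y1]; linarith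
    have y3 : l3 / 2 ≤ Real.log (Real.log (l1 / 10)) := by
      have h1 : Real.log (l2 / 2) ≤ Real.log (Real.log (l1 / 10)) :=
        Real.log_le_log (by positivity) y2
      rw [Real.log_div hl2p.ne' (by norm_num)] at h1
      change l3 - Real.log 2 ≤ _ at h1
      linarith
    have y3' : Real.log (Real.log (l1 / 10)) ≤ l3 := Real.log_le_log (by linarith) y2'
    have y4 : l4 / 2 ≤ Real.log (Real.log (Real.log (l1 / 10))) := by
      have h1 : Real.log (l3 / 2) ≤ Real.log (Real.log (Real.log (l1 / 10))) :=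
        Real.log_le_log (by positivity) y3
      rw [Real.log_div hl3p.ne' (by norm_num)] at h1
      change l4 - Real.log 2 ≤ _ at h1
      linarith
    set D : ℝ := δ * ff X with hD
    have hDle : D ≤ ff X := by
      rw [hD]
      nlinarith
    have hcl2 : 1 ≤ c * l2 := by
      rw [div_le_iff₀ hc] at e3c
      linarith
    have hcl22 : 2 ≤ c * l2 := by
      rw [div_le_iff₀ hc] at e3c2
      linarith
    have hge : l1 ≤ c * D := by
      calc l1 = l1 * 1 := (mul_one _).symm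
        _ ≤ l1 * (c * l2) := mul_le_mul_of_nonneg_left hcl2 hl1p.le
        _ = c * (l1 * l2) := by ring
        _ ≤ c * D := mul_le_mul_of_nonneg_left hδf hc.le
    have hle : c * D ≤ l1 * l2 ^ 2 / 40 := by
      refine (mul_le_mul_of_nonneg_left hDle hc.le).trans ?_
      rw [hff]
      have h1 : c * l4 ≤ l3 ^ 2 / 40 := by
        have h2 : c * l4 ≤ c * l3 := by
          apply mul_le_mul_of_nonneg_left _ hc.le
          linarith
        nlinarith
      rw [show c * (l1 * l2 ^ 2 * l4 / l3 ^ 2) = (l1 * l2 ^ 2) * ((c * l4) / l3 ^ 2) by ring]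
      have h3 : (c * l4) / l3 ^ 2 ≤ 1 / 40 := by
        rw [div_le_iff₀ (by positivity)]
        linarith
      have h4 : 0 ≤ l1 * l2 ^ 2 := by positivity
      calc (l1 * l2 ^ 2) * ((c * l4) / l3 ^ 2) ≤ (l1 * l2 ^ 2) * (1 / 40) :=
            mul_le_mul_of_nonneg_left h3 h4
        _ = _ := by ring
    have hD0 : 0 ≤ c * D := by linarith
    have hfl : ((⌊c * D⌋₊ : ℕ) : ℝ) ≤ c * D := Nat.floor_le hD0
    have hfl' : c * D < (⌊c * D⌋₊ : ℕ) + 1 := Nat.lt_floor_add_one _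
    have hl2le : l2 ^ 2 ≤ l1 / 2 := e2
    refine ⟨e0, by linarith [le_abs_self y₀], by linarith, ?_, by linarith, by linarith, ?_, ?_,
      by linarith, by linarith, ?_, by linarith, hδ0, ?_⟩
    · have : (l2 / 2) ^ 2 ≤ (Real.log (l1 / 10)) ^ 2 := pow_le_pow_left₀ (by positivity) y2 2
      nlinarith
    · have h1 : (l2 / 2) ^ 2 ≤ (Real.log (l1 / 10)) ^ 2 :=
        pow_le_pow_left₀ (by positivity) y2 2
      have h2 : l1 / 10 * (l2 / 2) ^ 2 ≤ l1 / 10 * (Real.log (l1 / 10)) ^ 2 :=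
        mul_le_mul_of_nonneg_left h1 (by positivity)
      nlinarith
    · have h1 : l1 * l2 ^ 2 ≤ l1 * (l1 / 2) := mul_le_mul_of_nonneg_left hl2le hl1p.le
      have h2 : 0 < l1 ^ 2 := by positivity
      nlinarith
    · have h1 : l1 * l2 ≤ δ * (l1 * l2 ^ 2 * l4 / l3 ^ 2) := by rw [← hff]; exact hδf
      have h2 : l4 / l3 ^ 2 ≤ 1 := by
        rw [div_le_one (by positivity)]
        nlinarith
      have h3 : δ * (l1 * l2 ^ 2 * l4 / l3 ^ 2) ≤ δ * (l1 * l2 ^ 2) := by
        apply mul_le_mul_of_nonneg_left _ hδ0.le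
        calc l1 * l2 ^ 2 * l4 / l3 ^ 2 = (l1 * l2 ^ 2) * (l4 / l3 ^ 2) := by ring
          _ ≤ (l1 * l2 ^ 2) * 1 := mul_le_mul_of_nonneg_left h2 (by positivity)
          _ = _ := by ring
      have h4 : (l1 * l2) * 1 ≤ (l1 * l2) * (δ * l2) := by
        calc (l1 * l2) * 1 = l1 * l2 := mul_one _
          _ ≤ δ * (l1 * l2 ^ 2) := h1.trans h3
          _ = _ := by ring
      have h5 : 1 ≤ δ * l2 := le_of_mul_le_mul_left h4 (by positivity)
      rw [div_le_iff₀ hl2p]
      exact h5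
    · have h1 : (Real.log (Real.log (l1 / 10))) ^ 2 ≤ l3 ^ 2 :=
        pow_le_pow_left₀ (by linarith) y3' 2
      have h2 : (Real.log (Real.log (l1 / 10))) ^ 2 * (4 * ff X) ≤ l3 ^ 2 * (4 * ff X) :=
        mul_le_mul_of_nonneg_right h1 (by positivity)
      have h3 : l3 ^ 2 * (4 * ff X) = 4 * l1 * (l2 ^ 2 * l4) := by
        rw [hff]
        field_simp
      have h4 : (l2 / 2) ^ 2 * (l4 / 2) ≤
          (Real.log (l1 / 10)) ^ 2 * Real.log (Real.log (Real.log (l1 / 10))) :=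
        mul_le_mul (pow_le_pow_left₀ (by positivity) y2 2) y4 (by positivity) (by positivity)
      have h5 : (l1 / 10) * 40 * 4 * ((l2 / 2) ^ 2 * (l4 / 2)) * 2 ≤
          (l1 / 10) * 40 * 4 * ((Real.log (l1 / 10)) ^ 2 *
            Real.log (Real.log (Real.log (l1 / 10)))) * 2 := by
        apply mul_le_mul_of_nonneg_right _ (by norm_num)
        exact mul_le_mul_of_nonneg_left h4 (by positivity)
      have h6 : (l1 / 10) * 40 * 4 * ((l2 / 2) ^ 2 * (l4 / 2)) * 2 = 4 * l1 * (l2 ^ 2 * l4) := by ring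
      linarith
  obtain ⟨X₀, hX₀⟩ := eventually_atTop.1 key
  exact ⟨X₀, hX₀⟩

end Pool.Agent.U642.DS
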