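import Mathlib

set_option autoImplicit false
set_option linter.unusedVariables false

/-! # Averages over residue classes modulo a product of distinct primes (helper642) -/

namespace Pool.Agent.U642.DS

open Finset

open scoped Classical

theorem crt_sum (S : Finset ℕ) (hS : ∀ p ∈ S, p.Prime) (f : ℕ → ℕ → ℝ) :
    ∑ s ∈ range (∏ p ∈ S, p), ∏ p ∈ S, f p (s % p) = ∏ p ∈ S, ∑ r ∈ range p, f p r := by
  rw [Finset.prod_sum]
  have hpos : ∀ p ∈ S, 0 < p := fun p hp => (hS p hp).pos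
  have hmaps : ∀ s ∈ range (∏ p ∈ S, p), (fun (p : ℕ) (_ : p ∈ S) => s % p) ∈
      S.pi (fun p => range p) := by
    intro s _
    rw [Finset.mem_pi]
    intro p hp
    exact mem_range.mpr (Nat.mod_lt _ (hpos p hp))
  have hinj : ∀ s ∈ range (∏ p ∈ S, p), ∀ s' ∈ range (∏ p ∈ S, p),
      (fun (p : ℕ) (_ : p ∈ S) => s % p) = (fun (p : ℕ) (_ : p ∈ S) => s' % p) → s = s' := by
    intro s hs s' hs' h
    have h1 : ∀ p ∈ S, (p : ℤ) ∣ (s : ℤ) - s' := by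
      intro p hp
      have h2 : s % p = s' % p := congrFun (congrFun h p) hp
      have h3 : s' ≡ s [MOD p] := h2.symm
      exact (Nat.modEq_iff_dvd).mp h3
    have h2 : ((∏ p ∈ S, (p : ℤ))) ∣ (s : ℤ) - s' := by
      apply Finset.prod_dvd_of_coprime
      · intro p hp q hq hpq
        exact Nat.isCoprime_iff_coprime.mpr ((Nat.coprime_primes (hS p hp) (hS q hq)).mpr hpq)
      · exact h1
    have h3 := mem_range.mp hs
    have h4 := mem_range.mp hs'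
    have h5 : (s : ℤ) - s' = 0 := by
      apply Int.eq_zero_of_abs_lt_dvd h2
      have e : ((∏ p ∈ S, p : ℕ) : ℤ) = ∏ p ∈ S, (p : ℤ) := by push_cast; rfl
      rw [← e, abs_lt]
      constructor <;> omega
    omega
  refine Finset.sum_bij (fun s _ => fun (p : ℕ) (_ : p ∈ S) => s % p) hmaps
    (fun s hs s' hs' h => hinj s hs s' hs' h) ?_ ?_
  · have hcard : (S.pi (fun p => range p)).card ≤ (range (∏ p ∈ S, p)).card := by
      rw [Finset.card_pi, card_range]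
      simp
    intro x hx
    obtain ⟨s, hs, hsx⟩ := Finset.surj_on_of_inj_on_of_card_le
      (fun s _ => fun (p : ℕ) (_ : p ∈ S) => s % p) hmaps
      (fun s s' hs hs' h => hinj s hs s' hs' h) hcard x hx
    exact ⟨s, hs, hsx.symm⟩
  · intro s _
    exact (prod_attach S (fun p => f p (s % p))).symm

/-- there is a root modulo `p` -/
theorem exists_root (p : ℕ) (hp : p.Prime) (j s : ℕ) (h : ℤ) (hj : ¬ p ∣ j) :
    ∃ r ∈ range p, (p : ℤ) ∣ (j : ℤ) * ((s : ℤ) - (r : ℕ)) + h := by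
  haveI : Fact p.Prime := ⟨hp⟩
  have hj0 : (j : ZMod p) ≠ 0 := by
    rw [Ne, ZMod.natCast_eq_zero_iff]
    exact hj
  set x : ZMod p := (s : ZMod p) + (h : ZMod p) / (j : ZMod p) with hx
  refine ⟨x.val, mem_range.mpr (ZMod.val_lt x), ?_⟩
  rw [← ZMod.intCast_zmod_eq_zero_iff_dvd]
  push_cast
  rw [ZMod.natCast_zmod_val, hx]
  field_simp
  ring

/-- number of the colours `(j, h)` of `K` which are not covered by the primes of `S` at `m` -/
noncomputable def UU (S : Finset ℕ) (K : Finset (ℕ × ℤ)) (m : ℤ) : Finset (ℕ × ℤ) :=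
  K.filter (fun k => ∀ p ∈ S, ¬ (p : ℤ) ∣ (k.1 : ℤ) * m + k.2)

theorem dvd_mod_iff (p j : ℕ) (a b : ℤ) (c c' : ℤ) (h : ℤ) (hc : (p : ℤ) ∣ c - c') :
    (p : ℤ) ∣ (j : ℤ) * (a - c) + h ↔ (p : ℤ) ∣ (j : ℤ) * (a - c') + h := by
  have e : (j : ℤ) * (a - c') + h = ((j : ℤ) * (a - c) + h) + j * (c - c') := by ring
  rw [e]
  exact (dvd_add_left (Dvd.dvd.mul_left hc _)).symm

theorem dvd_mod_iff' (p j : ℕ) (a a' b : ℤ) (h : ℤ) (ha : (p : ℤ) ∣ a - a') :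
    (p : ℤ) ∣ (j : ℤ) * (a - b) + h ↔ (p : ℤ) ∣ (j : ℤ) * (a' - b) + h := by
  have e : (j : ℤ) * (a - b) + h = ((j : ℤ) * (a' - b) + h) + j * (a - a') := by ring
  rw [e]
  exact (dvd_add_left (Dvd.dvd.mul_left ha _))

lemma mod_dvd (s p : ℕ) : (p : ℤ) ∣ (s : ℤ) - ((s % p : ℕ) : ℤ) := by
  have h : s % p ≡ s [MOD p] := Nat.mod_modEq s p
  exact (Nat.modEq_iff_dvd).mp h

theorem ind_prod (S : Finset ℕ) (P : ℕ → Prop) [DecidablePred P] [Decidable (∀ p ∈ S, P p)] :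
    (if ∀ p ∈ S, P p then (1 : ℝ) else 0) = ∏ p ∈ S, (if P p then 1 else 0) := by
  split_ifs with h
  · symm
    apply prod_eq_one
    intro p hp
    rw [if_pos (h p hp)]
  · push Not at h
    obtain ⟨p, hp, hP⟩ := h
    rw [prod_eq_zero hp (if_neg hP)]

/-- count for one colour, one variable -/
theorem one_var (S : Finset ℕ) (hS : ∀ p ∈ S, p.Prime) (j : ℕ) (h : ℤ) (hj : ∀ p ∈ S, ¬ p ∣ j)
    (s : ℕ) :
    ∑ s' ∈ range (∏ p ∈ S, p), (if ∀ p ∈ S, ¬ (p : ℤ) ∣ (j : ℤ) * ((s : ℤ) - (s' : ℕ)) + h then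
      (1 : ℝ) else 0) ≤ ∏ p ∈ S, ((p : ℝ) - 1) := by
  set f : ℕ → ℕ → ℝ := fun p r => if ¬ (p : ℤ) ∣ (j : ℤ) * ((s : ℤ) - (r : ℕ)) + h
        then (1 : ℝ) else 0 with hf
  have h1 : ∀ s' : ℕ, (if ∀ p ∈ S, ¬ (p : ℤ) ∣ (j : ℤ) * ((s : ℤ) - (s' : ℕ)) + h then
      (1 : ℝ) else 0) = ∏ p ∈ S, f p (s' % p) := by
    intro s'
    rw [ind_prod S (fun p => ¬ (p : ℤ) ∣ (j : ℤ) * ((s : ℤ) - (s' : ℕ)) + h)]
    apply prod_congr rfl
    intro p _
    simp only [hf]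
    have e := dvd_mod_iff p j s 0 s' ((s' % p : ℕ) : ℤ) h (mod_dvd s' p)
    by_cases h0 : (p : ℤ) ∣ (j : ℤ) * ((s : ℤ) - (s' : ℕ)) + h
    · rw [if_neg (not_not.mpr h0), if_neg (not_not.mpr (e.mp h0))]
    · rw [if_pos h0, if_pos (fun h2 => h0 (e.mpr h2))]
  rw [sum_congr rfl fun s' _ => h1 s', crt_sum S hS f]
  apply prod_le_prod
  · intro p _
    exact sum_nonneg fun r _ => by
      simp only [hf]
      split_ifs <;> norm_num
  · intro p hp
    obtain ⟨r, hr, hrd⟩ := exists_root p (hS p hp) j s h (hj p hp)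
    have h0 : f p r = 0 := by
      simp only [hf]
      rw [if_neg (not_not.mpr hrd)]
    rw [← add_sum_erase (range p) _ hr, h0, zero_add]
    have h2 : ∑ x ∈ (range p).erase r, f p x ≤ ∑ x ∈ (range p).erase r, (1 : ℝ) :=
      sum_le_sum fun x _ => by
        simp only [hf]
        split_ifs <;> norm_num
    refine h2.trans (le_of_eq ?_)
    rw [sum_const, card_erase_of_mem hr, card_range, nsmul_eq_mul, mul_one,
      Nat.cast_sub (hS p hp).one_lt.le, Nat.cast_one]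

/-- averaging over a set of classes -/
theorem avgI (S : Finset ℕ) (hS : ∀ p ∈ S, p.Prime) (K : Finset (ℕ × ℤ))
    (hK : ∀ k ∈ K, ∀ p ∈ S, ¬ p ∣ k.1) (T : Finset ℕ) (hT : T ⊆ range (∏ p ∈ S, p))
    (hne : T.Nonempty) : ∃ s ∈ T, ∃ s' ∈ T,
      ((UU S K ((s : ℤ) - s')).card : ℝ) * T.card ≤ K.card * ∏ p ∈ S, ((p : ℝ) - 1) := by
  by_contra hcon
  push Not at hcon
  have h1 : ∑ s ∈ T, ∑ s' ∈ T, ((K.card : ℝ) * ∏ p ∈ S, ((p : ℝ) - 1)) <
      ∑ s ∈ T, ∑ s' ∈ T, ((UU S K ((s : ℤ) - s')).card : ℝ) * T.card := by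
    apply sum_lt_sum_of_nonempty hne
    intro s hs
    apply sum_lt_sum_of_nonempty hne
    intro s' hs'
    exact hcon s hs s' hs'
  have h2 : ∀ s ∈ T, ∑ s' ∈ T, ((UU S K ((s : ℤ) - s')).card : ℝ) ≤
      K.card * ∏ p ∈ S, ((p : ℝ) - 1) := by
    intro s _
    calc ∑ s' ∈ T, ((UU S K ((s : ℤ) - s')).card : ℝ)
        ≤ ∑ s' ∈ range (∏ p ∈ S, p), ((UU S K ((s : ℤ) - s')).card : ℝ) :=
          sum_le_sum_of_subset_of_nonneg hT fun _ _ _ => Nat.cast_nonneg _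
      _ = ∑ k ∈ K, ∑ s' ∈ range (∏ p ∈ S, p),
            (if ∀ p ∈ S, ¬ (p : ℤ) ∣ (k.1 : ℤ) * ((s : ℤ) - (s' : ℕ)) + k.2 then (1 : ℝ) else 0) := by
          rw [sum_comm]
          apply sum_congr rfl
          intro s' _
          unfold UU
          rw [card_filter]
          push_cast
          rfl
      _ ≤ ∑ k ∈ K, ∏ p ∈ S, ((p : ℝ) - 1) :=
          sum_le_sum fun k hk => one_var S hS k.1 k.2 (hK k hk) s
      _ = _ := by rw [sum_const, nsmul_eq_mul]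
  have h3 : ∑ s ∈ T, ∑ s' ∈ T, ((UU S K ((s : ℤ) - s')).card : ℝ) * T.card ≤
      ∑ s ∈ T, (K.card * ∏ p ∈ S, ((p : ℝ) - 1)) * T.card := by
    apply sum_le_sum
    intro s hs
    rw [← sum_mul]
    exact mul_le_mul_of_nonneg_right (h2 s hs) (Nat.cast_nonneg _)
  simp only [sum_const, nsmul_eq_mul] at h1 h3
  have h4 : (T.card : ℝ) * ((T.card : ℝ) * ((K.card : ℝ) * ∏ p ∈ S, ((p : ℝ) - 1))) =
      (T.card : ℝ) * ((K.card * ∏ p ∈ S, ((p : ℝ) - 1)) * T.card) := by ring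
  linarith

end Pool.Agent.U642.DS
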