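import Pool.Agent.U642.DS.Avg

set_option autoImplicit false
set_option linter.unusedVariables false

/-! # Averages over pairs of reduced residue classes (helper642) -/

namespace Pool.Agent.U642.DS

open Finset

open scoped Classical

theorem crt_sum2 (S : Finset ℕ) (hS : ∀ p ∈ S, p.Prime) (F : ℕ → ℕ → ℕ → ℝ) :
    ∑ s ∈ range (∏ p ∈ S, p), ∑ s' ∈ range (∏ p ∈ S, p), ∏ p ∈ S, F p (s % p) (s' % p) =
      ∏ p ∈ S, ∑ r ∈ range p, ∑ r' ∈ range p, F p r r' := by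
  have h1 : ∀ s : ℕ, ∑ s' ∈ range (∏ p ∈ S, p), ∏ p ∈ S, F p (s % p) (s' % p) =
      ∏ p ∈ S, ∑ r' ∈ range p, F p (s % p) r' := fun s =>
    crt_sum S hS (fun p r' => F p (s % p) r')
  rw [sum_congr rfl fun s _ => h1 s]
  exact crt_sum S hS (fun p r => ∑ r' ∈ range p, F p r r')

theorem root_unique (p : ℕ) (hp : p.Prime) (j : ℕ) (h : ℤ) (hj : ¬ p ∣ j) (r r' : ℕ) (hr : r < p)
    (hr' : r' < p) (h1 : (p : ℤ) ∣ (j : ℤ) * r + h) (h2 : (p : ℤ) ∣ (j : ℤ) * r' + h) : r = r' := by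
  have h3 := dvd_sub h1 h2
  have h4 : (j : ℤ) * r + h - ((j : ℤ) * r' + h) = j * ((r : ℤ) - r') := by ring
  rw [h4] at h3
  have h5 : IsCoprime (p : ℤ) (j : ℤ) :=
    Nat.isCoprime_iff_coprime.mpr ((Nat.Prime.coprime_iff_not_dvd hp).mpr hj)
  have h6 := h5.dvd_of_dvd_mul_left h3
  have h7 : (r : ℤ) - r' = 0 := by
    apply Int.eq_zero_of_abs_lt_dvd h6
    rw [abs_lt]
    constructor <;> omega
  omega

/-- the local count -/
theorem local_P (p : ℕ) (hp : p.Prime) (j : ℕ) (h : ℤ) (hj : ¬ p ∣ j) :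
    ∑ r ∈ range p, ∑ r' ∈ range p, ((if r ≠ 0 then (1 : ℝ) else 0) * (if r' ≠ 0 then 1 else 0) *
      (if ¬ (p : ℤ) ∣ (j : ℤ) * ((r : ℤ) - (r' : ℕ)) + h then 1 else 0)) ≤
      ((p : ℝ) - 1) ^ 2 - ((p : ℝ) - 2) := by
  have hp2 : 2 ≤ p := hp.two_le
  have hp0 : 0 ∈ range p := mem_range.mpr hp.pos
  have h1 : ∀ r ∈ (range p).erase 0, ∑ r' ∈ range p, ((if r ≠ 0 then (1 : ℝ) else 0) *
      (if r' ≠ 0 then 1 else 0) *
      (if ¬ (p : ℤ) ∣ (j : ℤ) * ((r : ℤ) - (r' : ℕ)) + h then 1 else 0)) ≤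
      ((p : ℝ) - 1) - (if (p : ℤ) ∣ (j : ℤ) * r + h then 0 else 1) := by
    intro r hr
    have hr0 : r ≠ 0 := (mem_erase.mp hr).1
    have e1 : ∑ r' ∈ range p, ((if r ≠ 0 then (1 : ℝ) else 0) * (if r' ≠ 0 then 1 else 0) *
        (if ¬ (p : ℤ) ∣ (j : ℤ) * ((r : ℤ) - (r' : ℕ)) + h then 1 else 0)) =
        ∑ r' ∈ (range p).erase 0, (if ¬ (p : ℤ) ∣ (j : ℤ) * ((r : ℤ) - (r' : ℕ)) + h
          then (1 : ℝ) else 0) := by
      rw [← add_sum_erase (range p) _ hp0]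
      simp only [ne_eq, not_true_eq_false, if_false, mul_zero, zero_mul, zero_add]
      apply sum_congr rfl
      intro r' hr'
      rw [if_pos hr0, if_pos (mem_erase.mp hr').1, one_mul, one_mul]
    rw [e1]
    have hcard : (((range p).erase 0).card : ℝ) = (p : ℝ) - 1 := by
      rw [card_erase_of_mem hp0, card_range, Nat.cast_sub hp.one_lt.le, Nat.cast_one]
    by_cases hd : (p : ℤ) ∣ (j : ℤ) * r + h
    · rw [if_pos hd, sub_zero, ← hcard]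
      have : ∑ r' ∈ (range p).erase 0, (if ¬ (p : ℤ) ∣ (j : ℤ) * ((r : ℤ) - (r' : ℕ)) + h
          then (1 : ℝ) else 0) ≤ ∑ r' ∈ (range p).erase 0, (1 : ℝ) :=
        sum_le_sum fun r' _ => by split_ifs <;> norm_num
      refine this.trans (le_of_eq ?_)
      rw [sum_const, nsmul_eq_mul, mul_one]
    · rw [if_neg hd]
      obtain ⟨r', hr', hrd⟩ := exists_root p hp j r h hj
      have hr'0 : r' ≠ 0 := by
        intro h0
        rw [h0] at hrd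
        apply hd
        simpa using hrd
      have hmem : r' ∈ (range p).erase 0 := mem_erase.mpr ⟨hr'0, hr'⟩
      rw [← add_sum_erase _ _ hmem, if_neg (not_not.mpr hrd), zero_add]
      have : ∑ x ∈ ((range p).erase 0).erase r', (if ¬ (p : ℤ) ∣ (j : ℤ) * ((r : ℤ) - (x : ℕ)) + h
          then (1 : ℝ) else 0) ≤ ∑ x ∈ ((range p).erase 0).erase r', (1 : ℝ) :=
        sum_le_sum fun x _ => by split_ifs <;> norm_num
      refine this.trans (le_of_eq ?_)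
      rw [sum_const, nsmul_eq_mul, mul_one, card_erase_of_mem hmem, card_erase_of_mem hp0, card_range,
        Nat.cast_sub (by omega), Nat.cast_sub hp.one_lt.le, Nat.cast_one]
  rw [← add_sum_erase (range p) _ hp0]
  have h0 : ∑ r' ∈ range p, ((if (0:ℕ) ≠ 0 then (1 : ℝ) else 0) * (if r' ≠ 0 then 1 else 0) *
      (if ¬ (p : ℤ) ∣ (j : ℤ) * (((0 : ℕ) : ℤ) - (r' : ℕ)) + h then 1 else 0)) = 0 := by
    apply sum_eq_zero
    intro r' _
    simp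
  rw [h0, zero_add]
  refine (sum_le_sum h1).trans ?_
  rw [sum_sub_distrib, sum_const, nsmul_eq_mul, card_erase_of_mem hp0, card_range,
    Nat.cast_sub hp.one_lt.le, Nat.cast_one]
  have h2 : (p : ℝ) - 2 ≤ ∑ r ∈ (range p).erase 0, (if (p : ℤ) ∣ (j : ℤ) * r + h then (0 : ℝ) else 1) := by
    have e1 : ∑ r ∈ (range p).erase 0, (if (p : ℤ) ∣ (j : ℤ) * r + h then (0 : ℝ) else 1) =
        ∑ r ∈ (range p).erase 0, (1 - (if (p : ℤ) ∣ (j : ℤ) * r + h then (1 : ℝ) else 0)) :=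
      sum_congr rfl fun r _ => by split_ifs <;> norm_num
    rw [e1, sum_sub_distrib, sum_const, nsmul_eq_mul, mul_one, card_erase_of_mem hp0, card_range,
      Nat.cast_sub hp.one_lt.le, Nat.cast_one]
    have e2 : ∑ r ∈ (range p).erase 0, (if (p : ℤ) ∣ (j : ℤ) * r + h then (1 : ℝ) else 0) ≤ 1 := by
      rw [← sum_filter, sum_const, nsmul_eq_mul, mul_one]
      have : (((range p).erase 0).filter (fun r : ℕ => (p : ℤ) ∣ (j : ℤ) * r + h)).card ≤ 1 := by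
        rw [card_le_one]
        intro a ha b hb
        rw [mem_filter, mem_erase, mem_range] at ha hb
        exact root_unique p hp j h hj a b ha.1.2 hb.1.2 ha.2 hb.2
      exact_mod_cast this
    linarith
  nlinarith

/-- reduced classes -/
noncomputable def RR (P : ℕ) : Finset ℕ := (range P).filter (fun s => P.Coprime s)

theorem cop_iff (S : Finset ℕ) (hS : ∀ p ∈ S, p.Prime) (s : ℕ) :
    (∏ p ∈ S, p).Coprime s ↔ ∀ p ∈ S, s % p ≠ 0 := by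
  rw [Nat.coprime_prod_left_iff]
  constructor
  · intro h p hp h0
    exact ((Nat.Prime.coprime_iff_not_dvd (hS p hp)).mp (h p hp)) (Nat.dvd_of_mod_eq_zero h0)
  · intro h p hp
    exact (Nat.Prime.coprime_iff_not_dvd (hS p hp)).mpr fun hd => h p hp (Nat.mod_eq_zero_of_dvd hd)

theorem two_var (S : Finset ℕ) (hS : ∀ p ∈ S, p.Prime) (j : ℕ) (h : ℤ) (hj : ∀ p ∈ S, ¬ p ∣ j) :
    ∑ s ∈ RR (∏ p ∈ S, p), ∑ s' ∈ RR (∏ p ∈ S, p),
      (if ∀ p ∈ S, ¬ (p : ℤ) ∣ (j : ℤ) * ((s : ℤ) - (s' : ℕ)) + h then (1 : ℝ) else 0) ≤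
      ∏ p ∈ S, (((p : ℝ) - 1) ^ 2 - ((p : ℝ) - 2)) := by
  set F : ℕ → ℕ → ℕ → ℝ := fun p r r' => (if r ≠ 0 then (1 : ℝ) else 0) * (if r' ≠ 0 then 1 else 0) *
      (if ¬ (p : ℤ) ∣ (j : ℤ) * ((r : ℤ) - (r' : ℕ)) + h then 1 else 0) with hF
  have h1 : ∑ s ∈ RR (∏ p ∈ S, p), ∑ s' ∈ RR (∏ p ∈ S, p),
      (if ∀ p ∈ S, ¬ (p : ℤ) ∣ (j : ℤ) * ((s : ℤ) - (s' : ℕ)) + h then (1 : ℝ) else 0) =
      ∑ s ∈ range (∏ p ∈ S, p), ∑ s' ∈ range (∏ p ∈ S, p), ∏ p ∈ S, F p (s % p) (s' % p) := by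
    unfold RR
    rw [sum_filter]
    apply sum_congr rfl
    intro s _
    have e0 : ∀ s' : ℕ, ∏ p ∈ S, F p (s % p) (s' % p) =
        (if ∀ p ∈ S, s % p ≠ 0 then (1 : ℝ) else 0) * ((if ∀ p ∈ S, s' % p ≠ 0 then (1 : ℝ) else 0) *
        (if ∀ p ∈ S, ¬ (p : ℤ) ∣ (j : ℤ) * ((s : ℤ) - (s' : ℕ)) + h then (1 : ℝ) else 0)) := by
      intro s'
      rw [ind_prod S (fun p => s % p ≠ 0), ind_prod S (fun p => s' % p ≠ 0),
        ind_prod S (fun p => ¬ (p : ℤ) ∣ (j : ℤ) * ((s : ℤ) - (s' : ℕ)) + h), ← prod_mul_distrib,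
        ← prod_mul_distrib]
      apply prod_congr rfl
      intro p _
      simp only [hF]
      rw [mul_assoc]
      congr 2
      have e1 := dvd_mod_iff p j s 0 s' ((s' % p : ℕ) : ℤ) h (mod_dvd s' p)
      have e2 := dvd_mod_iff' p j s ((s % p : ℕ) : ℤ) ((s' % p : ℕ) : ℤ) h (mod_dvd s p)
      have e3 := e1.trans e2
      by_cases h0 : (p : ℤ) ∣ (j : ℤ) * ((s : ℤ) - (s' : ℕ)) + h
      · rw [if_neg (not_not.mpr h0), if_neg (not_not.mpr (e3.mp h0))]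
      · rw [if_pos h0, if_pos (fun h2 => h0 (e3.mpr h2))]
    rw [sum_congr rfl fun s' _ => e0 s', ← mul_sum]
    by_cases hs : ∀ p ∈ S, s % p ≠ 0
    · rw [if_pos hs, one_mul, if_pos ((cop_iff S hS s).mpr hs), sum_filter]
      apply sum_congr rfl
      intro s' _
      by_cases hs' : ∀ p ∈ S, s' % p ≠ 0
      · rw [if_pos hs', one_mul, if_pos ((cop_iff S hS s').mpr hs')]
      · rw [if_neg hs', zero_mul, if_neg (fun h0 => hs' ((cop_iff S hS s').mp h0))]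
    · rw [if_neg hs, zero_mul, if_neg (fun h0 => hs ((cop_iff S hS s).mp h0))]
  rw [h1, crt_sum2 S hS F]
  apply prod_le_prod
  · intro p _
    apply sum_nonneg
    intro r _
    apply sum_nonneg
    intro r' _
    simp only [hF]
    apply mul_nonneg
    · apply mul_nonneg <;> split_ifs <;> norm_num
    · split_ifs <;> norm_num
  · intro p hp
    exact local_P p (hS p hp) j h (hj p hp)

theorem avgP (S : Finset ℕ) (hS : ∀ p ∈ S, p.Prime) (K : Finset (ℕ × ℤ))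
    (hK : ∀ k ∈ K, ∀ p ∈ S, ¬ p ∣ k.1) (T : Finset ℕ) (hT : T ⊆ RR (∏ p ∈ S, p))
    (hne : T.Nonempty) : ∃ s ∈ T, ∃ s' ∈ T,
      ((UU S K ((s : ℤ) - s')).card : ℝ) * (T.card : ℝ) ^ 2 ≤
        K.card * ∏ p ∈ S, (((p : ℝ) - 1) ^ 2 - ((p : ℝ) - 2)) := by
  by_contra hcon
  push Not at hcon
  have hTc : (0 : ℝ) < T.card := by exact_mod_cast card_pos.mpr hne
  have h1 : ∑ s ∈ T, ∑ s' ∈ T, (((K.card : ℝ) * ∏ p ∈ S, (((p : ℝ) - 1) ^ 2 - ((p : ℝ) - 2)))) <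
      ∑ s ∈ T, ∑ s' ∈ T, ((UU S K ((s : ℤ) - s')).card : ℝ) * (T.card : ℝ) ^ 2 := by
    apply sum_lt_sum_of_nonempty hne
    intro s hs
    apply sum_lt_sum_of_nonempty hne
    intro s' hs'
    exact hcon s hs s' hs'
  have h2 : ∑ s ∈ T, ∑ s' ∈ T, ((UU S K ((s : ℤ) - s')).card : ℝ) ≤
      K.card * ∏ p ∈ S, (((p : ℝ) - 1) ^ 2 - ((p : ℝ) - 2)) := by
    have e1 : ∀ s s' : ℕ, ((UU S K ((s : ℤ) - s')).card : ℝ) = ∑ k ∈ K,
        (if ∀ p ∈ S, ¬ (p : ℤ) ∣ (k.1 : ℤ) * ((s : ℤ) - (s' : ℕ)) + k.2 then (1 : ℝ) else 0) := by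
      intro s s'
      unfold UU
      rw [card_filter]
      push_cast
      rfl
    calc ∑ s ∈ T, ∑ s' ∈ T, ((UU S K ((s : ℤ) - s')).card : ℝ)
        ≤ ∑ s ∈ RR (∏ p ∈ S, p), ∑ s' ∈ RR (∏ p ∈ S, p), ((UU S K ((s : ℤ) - s')).card : ℝ) := by
          refine (sum_le_sum fun s _ => sum_le_sum_of_subset_of_nonneg hT
            fun _ _ _ => Nat.cast_nonneg _).trans ?_
          exact sum_le_sum_of_subset_of_nonneg hT fun _ _ _ =>
            sum_nonneg fun _ _ => Nat.cast_nonneg _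
      _ = ∑ k ∈ K, ∑ s ∈ RR (∏ p ∈ S, p), ∑ s' ∈ RR (∏ p ∈ S, p),
            (if ∀ p ∈ S, ¬ (p : ℤ) ∣ (k.1 : ℤ) * ((s : ℤ) - (s' : ℕ)) + k.2 then (1 : ℝ) else 0) := by
          simp only [e1]
          rw [sum_comm' (s := K) (t := fun _ => RR (∏ p ∈ S, p)) (t' := RR (∏ p ∈ S, p))
            (s' := fun _ => K) (by simp [and_comm])]
          apply sum_congr rfl
          intro s _
          rw [sum_comm]
      _ ≤ ∑ k ∈ K, ∏ p ∈ S, (((p : ℝ) - 1) ^ 2 - ((p : ℝ) - 2)) :=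
          sum_le_sum fun k hk => two_var S hS k.1 k.2 (hK k hk)
      _ = _ := by rw [sum_const, nsmul_eq_mul]
  have h3 : ∑ s ∈ T, ∑ s' ∈ T, ((UU S K ((s : ℤ) - s')).card : ℝ) * (T.card : ℝ) ^ 2 =
      (∑ s ∈ T, ∑ s' ∈ T, ((UU S K ((s : ℤ) - s')).card : ℝ)) * (T.card : ℝ) ^ 2 := by
    rw [sum_mul]
    apply sum_congr rfl
    intro s _
    rw [sum_mul]
  rw [h3] at h1
  simp only [sum_const, nsmul_eq_mul] at h1
  have h4 := mul_le_mul_of_nonneg_right h2 (sq_nonneg (T.card : ℝ))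
  nlinarith

end Pool.Agent.U642.DS
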