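import Pool.Agent.U642.DS.Mod
import Pool.Agent.H256R2.SC.V1
import Pool.Agent.Helper112.LS

set_option autoImplicit false
set_option linter.unusedSectionVars false
set_option linter.unusedVariables false

/-! # Fourier expansion of a function of the colouring; differences of two sets (helper642)

Separation of the frequencies: adapted from H174R3/D6/TaskLS. -/

namespace Pool.Agent.U642.DS

open Finset Pool.Agent.H256R2.SC Pool.Agent.Helper112

lemma orthq (q : ℕ) (hq : 0 < q) (m : ℤ) :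
    ∑ a ∈ range q, ee ((a : ℝ) * ((m : ℝ) / q)) = if (q : ℤ) ∣ m then (q : ℂ) else 0 := by
  have hqR : (q : ℝ) ≠ 0 := by positivity
  split_ifs with h
  · obtain ⟨k, rfl⟩ := h
    have : ∀ a ∈ range q, ee ((a : ℝ) * (((q * k : ℤ) : ℝ) / q)) = 1 := by
      intro a _
      have e : (a : ℝ) * (((q * k : ℤ) : ℝ) / q) = ((a * k : ℤ) : ℝ) := by
        push_cast
        field_simp
      rw [e, ls_ee_int]
    rw [Finset.sum_congr rfl this]
    simp
  · have h1 : ∀ a ∈ range q, ee ((a : ℝ) * ((m : ℝ) / q)) = ee ((m : ℝ) / q) ^ a :=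
      fun a _ => ls_ee_nat_mul a _
    rw [Finset.sum_congr rfl h1]
    have h2 : ee ((m : ℝ) / q) ≠ 1 := by
      intro h3
      obtain ⟨n, hn⟩ := ls_ee_eq_one h3
      apply h
      refine ⟨n, ?_⟩
      have : (m : ℝ) = ((q * n : ℤ) : ℝ) := by
        push_cast
        rw [div_eq_iff hqR] at hn
        linarith
      exact_mod_cast this
    have h3 := geom_sum_mul (ee ((m : ℝ) / q)) q
    have h4 : ee ((m : ℝ) / q) ^ q = 1 := by
      rw [← ls_ee_nat_mul]
      have : (q : ℝ) * ((m : ℝ) / q) = m := by field_simp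
      rw [this, ls_ee_int]
    rw [h4, sub_self] at h3
    exact (mul_eq_zero.mp h3).resolve_right (sub_ne_zero.mpr h2)

lemma ee_sumq {ι : Type*} (s : Finset ι) (f : ι → ℝ) : ee (∑ i ∈ s, f i) = ∏ i ∈ s, ee (f i) := by
  classical
  induction s using Finset.induction_on with
  | empty => simp [ls_ee_zero]
  | insert a s ha ih => rw [Finset.sum_insert ha, Finset.prod_insert ha, ls_ee_add, ih]

lemma sep_of_fracq (K D : ℕ) (hD : 0 < D) (hDK : D ≤ K) (m : ℤ)
    (h : ¬ (D : ℤ) ∣ m) : lsSep K ((m : ℝ) / D) := by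
  have hDR : (0 : ℝ) < D := by exact_mod_cast hD
  have hKR : (0 : ℝ) < K := lt_of_lt_of_le hDR (by exact_mod_cast hDK)
  have hinv : 1 / (K : ℝ) ≤ 1 / (D : ℝ) :=
    one_div_le_one_div_of_le hDR (by exact_mod_cast hDK)
  have e : Int.fract ((m : ℝ) / D) = ((m % (D : ℤ) : ℤ) : ℝ) / (D : ℝ) :=
    Int.fract_div_intCast_eq_div_intCast_mod
  have h0 : m % (D : ℤ) ≠ 0 := fun h' => h (Int.dvd_of_emod_eq_zero h')
  have h1 : 0 ≤ m % (D : ℤ) := Int.emod_nonneg _ (by omega)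
  have h2 : m % (D : ℤ) < D := Int.emod_lt_of_pos _ (by omega)
  have h3 : 1 ≤ m % (D : ℤ) := by omega
  have h4 : m % (D : ℤ) ≤ D - 1 := by omega
  unfold lsSep
  rw [e]
  constructor
  · refine le_trans hinv ?_
    rw [div_le_div_iff_of_pos_right hDR]
    exact_mod_cast h3
  · have h5 : ((m % (D : ℤ) : ℤ) : ℝ) ≤ (D : ℝ) - 1 := by exact_mod_cast h4
    have h6 : ((m % (D : ℤ) : ℤ) : ℝ) / (D : ℝ) ≤ ((D : ℝ) - 1) / D := by
      rw [div_le_div_iff_of_pos_right hDR]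
      exact h5
    have h7 : ((D : ℝ) - 1) / D = 1 - 1 / (D : ℝ) := by
      rw [sub_div, div_self hDR.ne']
    linarith

lemma frac_sumq {ι : Type*} (s : Finset ι) (q : ι → ℕ) (y : ι → ℤ) (D : ℕ) (hD : 0 < D)
    (h : ∀ i ∈ s, q i ∣ D) :
    ∑ i ∈ s, (y i : ℝ) / q i = ((∑ i ∈ s, y i * ((D / q i : ℕ) : ℤ) : ℤ) : ℝ) / D := by
  rw [Int.cast_sum, Finset.sum_div]
  refine Finset.sum_congr rfl fun i hi => ?_
  obtain ⟨k, hk⟩ := h i hi
  have hq0 : 0 < q i := by
    rcases Nat.eq_zero_or_pos (q i) with h0 | h0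
    · rw [h0] at hk
      simp at hk
      omega
    · exact h0
  have hk0 : 0 < k := by
    rcases Nat.eq_zero_or_pos k with h0 | h0
    · subst h0
      simp at hk
      omega
    · exact h0
  have hqR : (q i : ℝ) ≠ 0 := by positivity
  have hkR : (k : ℝ) ≠ 0 := by positivity
  have e : ((D / q i : ℕ) : ℝ) = k := by
    rw [hk, Nat.mul_div_cancel_left _ hq0]
  rw [Int.cast_mul, Int.cast_natCast, e, show ((D : ℕ) : ℝ) = (q i : ℝ) * k by rw [hk]; push_cast; ring]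
  field_simp

lemma int_zeroq {ι : Type*} [DecidableEq ι] (U : Finset ι) (q : ι → ℕ) (hU : ∀ i ∈ U, (q i).Prime)
    (hinj : ∀ i ∈ U, ∀ j ∈ U, i ≠ j → q i ≠ q j) (e : ι → ℤ) (k : ℤ)
    (h : ∑ i ∈ U, (e i : ℝ) / q i = k) (i₀ : ι) (h₀ : i₀ ∈ U) : (q i₀ : ℤ) ∣ e i₀ := by
  set D : ℕ := ∏ i ∈ U, q i with hD
  have hD0 : 0 < D := Finset.prod_pos fun i hi => (hU i hi).pos
  have hDR : (D : ℝ) ≠ 0 := by positivity
  rw [frac_sumq U q e D hD0 (fun i hi => Finset.dvd_prod_of_mem _ hi), div_eq_iff hDR] at h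
  have h1 : ∑ i ∈ U, e i * ((D / q i : ℕ) : ℤ) = k * D := by exact_mod_cast h
  rw [← Finset.add_sum_erase U _ h₀] at h1
  have h3 : ∀ i ∈ U, D / q i = ∏ x ∈ U.erase i, q x := by
    intro i hi
    rw [hD, ← Finset.mul_prod_erase U _ hi, Nat.mul_div_cancel_left _ (hU i hi).pos]
  have h2 : (q i₀ : ℤ) ∣ ∑ i ∈ U.erase i₀, e i * ((D / q i : ℕ) : ℤ) := by
    apply Finset.dvd_sum
    intro i hi
    rw [mem_erase] at hi
    apply Dvd.dvd.mul_left
    have h4 : q i₀ ∣ ∏ x ∈ U.erase i, q x :=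
      Finset.dvd_prod_of_mem _ (mem_erase.mpr ⟨Ne.symm hi.1, h₀⟩)
    rw [h3 i hi.2]
    exact_mod_cast h4
  have h5 : (q i₀ : ℤ) ∣ k * D := by
    apply Dvd.dvd.mul_left
    have : q i₀ ∣ D := Finset.dvd_prod_of_mem _ h₀
    exact_mod_cast this
  have h6 : (q i₀ : ℤ) ∣ e i₀ * ((D / q i₀ : ℕ) : ℤ) := by
    have := dvd_sub h5 h2
    rwa [← h1, add_sub_cancel_right] at this
  have h8 : Nat.Coprime (q i₀) (∏ x ∈ U.erase i₀, q x) := by
    apply Nat.Coprime.prod_right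
    intro x hx
    rw [mem_erase] at hx
    exact (Nat.coprime_primes (hU i₀ h₀) (hU x hx.2)).mpr (hinj i₀ h₀ x hx.2 (Ne.symm hx.1))
  have h9 : IsCoprime (q i₀ : ℤ) ((∏ x ∈ U.erase i₀, q x : ℕ) : ℤ) := by
    exact_mod_cast Nat.isCoprime_iff_coprime.mpr h8
  rw [h3 i₀ h₀] at h6
  exact h9.dvd_of_dvd_mul_right h6

theorem sepq {n : ℕ} (q : Fin n → ℕ) (hq : ∀ i, (q i).Prime) (hinj : Function.Injective q) (R : ℕ)
    (b b' : Fin n → ℕ) (hb : ∀ i, b i < q i) (hb' : ∀ i, b' i < q i)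
    (hR : ∏ i with b i ≠ 0, q i ≤ R) (hR' : ∏ i with b' i ≠ 0, q i ≤ R) (hne : b ≠ b') :
    lsSep (R ^ 2) (∑ i, (b' i : ℝ) / q i - ∑ i, (b i : ℝ) / q i) := by
  classical
  set s : Finset (Fin n) := univ.filter (fun i => b i ≠ 0) with hs
  set s' : Finset (Fin n) := univ.filter (fun i => b' i ≠ 0) with hs'
  set y : Fin n → ℤ := fun i => (b' i : ℤ) - b i with hy
  have e1 : ∑ i, (b' i : ℝ) / q i - ∑ i, (b i : ℝ) / q i = ∑ i ∈ s ∪ s', (y i : ℝ) / q i := by
    rw [← sum_sub_distrib]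
    symm
    apply sum_subset_zero_on_sdiff (subset_univ _)
    · intro i hi
      rw [mem_sdiff, mem_union, not_or] at hi
      have h1 : b i = 0 := by
        by_contra h
        exact hi.2.1 (mem_filter.mpr ⟨mem_univ _, h⟩)
      have h2 : b' i = 0 := by
        by_contra h
        exact hi.2.2 (mem_filter.mpr ⟨mem_univ _, h⟩)
      rw [h1, h2]
      simp
    · intro i _
      rw [hy]
      push_cast
      ring
  set D : ℕ := (∏ i ∈ s, q i) * ∏ i ∈ s', q i with hD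
  have hpos : ∀ t : Finset (Fin n), 0 < ∏ i ∈ t, q i := fun t => prod_pos fun i _ => (hq i).pos
  have hD0 : 0 < D := Nat.mul_pos (hpos s) (hpos s')
  have hDR : D ≤ R ^ 2 := by
    rw [pow_two]
    exact Nat.mul_le_mul hR hR'
  have hdvd : ∀ i ∈ s ∪ s', q i ∣ D := by
    intro i hi
    rw [mem_union] at hi
    rcases hi with hi | hi
    · exact Dvd.dvd.mul_right (dvd_prod_of_mem _ hi) _
    · exact Dvd.dvd.mul_left (dvd_prod_of_mem _ hi) _
  rw [e1, frac_sumq (s ∪ s') q y D hD0 hdvd]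
  apply sep_of_fracq _ _ hD0 hDR
  rintro ⟨k, hk⟩
  apply hne
  have hDRn : (D : ℝ) ≠ 0 := by positivity
  have e2 : ∑ i ∈ s ∪ s', (y i : ℝ) / q i = k := by
    rw [frac_sumq (s ∪ s') q y D hD0 hdvd, hk, div_eq_iff hDRn]
    push_cast
    ring
  funext i
  by_cases hi : i ∈ s ∪ s'
  · have h1 := int_zeroq (s ∪ s') q (fun i _ => hq i) (fun i _ j _ hij h => hij (hinj h)) y k e2 i hi
    have h2 : y i = 0 := by
      apply Int.eq_zero_of_abs_lt_dvd h1
      have := hb i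
      have := hb' i
      rw [hy, abs_lt]
      constructor <;> simp only <;> omega
    rw [hy] at h2
    simp only at h2
    omega
  · rw [mem_union, not_or] at hi
    have h1 : b i = 0 := by
      by_contra h
      exact hi.1 (mem_filter.mpr ⟨mem_univ _, h⟩)
    have h2 : b' i = 0 := by
      by_contra h
      exact hi.2 (mem_filter.mpr ⟨mem_univ _, h⟩)
    rw [h1, h2]

section fourier

variable {κ : Type} [Fintype κ] [DecidableEq κ]

/-- local Fourier coefficients of the colours -/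
noncomputable def ph (q : ℕ) (r : κ → ℤ) (b : ℕ) (c : Option κ) : ℂ :=
  match c with
  | none => (if b = 0 then 1 else 0) - ∑ k, (1 / (q : ℂ)) * ee (-((b : ℝ) * (r k / q)))
  | some k => (1 / (q : ℂ)) * ee (-((b : ℝ) * (r k / q)))

lemma ph_some_inv (q : ℕ) (hq : 0 < q) (r : κ → ℤ) (a : ℤ) (k : κ) :
    ∑ b ∈ range q, ph q r b (some k) * ee ((a : ℝ) * ((b : ℝ) / q)) =
      if (q : ℤ) ∣ a - r k then 1 else 0 := by
  have hqC : (q : ℂ) ≠ 0 := by exact_mod_cast hq.ne'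
  have h1 : ∀ b ∈ range q, ph q r b (some k) * ee ((a : ℝ) * ((b : ℝ) / q)) =
      (1 / (q : ℂ)) * ee ((b : ℝ) * (((a - r k : ℤ) : ℝ) / q)) := by
    intro b _
    simp only [ph]
    rw [mul_assoc, ← ls_ee_add]
    congr 2
    push_cast
    ring
  rw [sum_congr rfl h1, ← mul_sum, orthq q hq]
  split_ifs
  · field_simp
  · simp

lemma ph_inv {PP : Finset ℕ} (hP : ∀ p ∈ PP, p.Prime) {res : ℕ → κ → ℤ}
    (hinj : ∀ p ∈ PP, ∀ k l, k ≠ l → ¬ ((p : ℤ) ∣ res p k - res p l)) (a : ℤ) (i : Fin PP.card)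
    (c : Option κ) :
    ∑ b ∈ range (emb PP i), ph (emb PP i) (res (emb PP i)) b c * ee ((a : ℝ) * ((b : ℝ) / (emb PP i : ℕ))) =
      if colr PP res a i = c then 1 else 0 := by
  have hq : 0 < emb PP i := (hP _ (emb_mem PP i)).pos
  have hsome : ∀ k, ∑ b ∈ range (emb PP i), ph (emb PP i) (res (emb PP i)) b (some k) *
      ee ((a : ℝ) * ((b : ℝ) / (emb PP i : ℕ))) = if colr PP res a i = some k then 1 else 0 := by
    intro k
    rw [ph_some_inv _ hq]
    exact if_congr (colr_eq hinj a i k).symm rfl rfl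
  cases c with
  | some k => exact hsome k
  | none =>
    have h1 : ∀ b ∈ range (emb PP i), ph (emb PP i) (res (emb PP i)) b none *
        ee ((a : ℝ) * ((b : ℝ) / (emb PP i : ℕ))) =
        (if b = 0 then (1:ℂ) else 0) * ee ((a : ℝ) * ((b : ℝ) / (emb PP i : ℕ))) -
          ∑ k, ph (emb PP i) (res (emb PP i)) b (some k) * ee ((a : ℝ) * ((b : ℝ) / (emb PP i : ℕ))) := by
      intro b _
      simp only [ph]
      rw [sub_mul, sum_mul]
    rw [sum_congr rfl h1, sum_sub_distrib, sum_comm]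
    rw [sum_congr rfl fun k _ => hsome k]
    have h2 : ∑ b ∈ range (emb PP i), (if b = 0 then (1:ℂ) else 0) *
        ee ((a : ℝ) * ((b : ℝ) / (emb PP i : ℕ))) = 1 := by
      rw [sum_eq_single 0]
      · simp [ls_ee_zero]
      · intro b _ hb
        rw [if_neg hb, zero_mul]
      · intro h
        exact absurd (mem_range.mpr hq) h
    rw [h2]
    cases hc : colr PP res a i with
    | none => simp
    | some l =>
      simp only [Option.some.injEq, reduceCtorEq, if_false]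
      rw [sum_ite_eq]
      simp

lemma ph_zero (q : ℕ) (r : κ → ℤ) (c : Option κ) :
    ph q r 0 c = ((wt (1 / (q : ℝ)) c : ℝ) : ℂ) := by
  cases c with
  | none =>
    simp only [ph, wt]
    simp [ls_ee_zero]
  | some k =>
    simp only [ph, wt]
    simp [ls_ee_zero]

lemma norm_ph_some (q : ℕ) (r : κ → ℤ) (b : ℕ) (k : κ) : ‖ph q r b (some k)‖ = 1 / (q : ℝ) := by
  simp only [ph]
  rw [norm_mul, ls_norm_ee, mul_one, norm_div, norm_one, Complex.norm_natCast]

lemma norm_ph_none (q : ℕ) (r : κ → ℤ) (b : ℕ) (hb : b ≠ 0) :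
    ‖ph q r b none‖ ≤ (Fintype.card κ : ℝ) * (1 / (q : ℝ)) := by
  simp only [ph]
  rw [if_neg hb, zero_sub, norm_neg]
  refine (norm_sum_le _ _).trans ?_
  have : ∀ k ∈ (univ : Finset κ), ‖(1 / (q : ℂ)) * ee (-((b : ℝ) * (r k / q)))‖ = 1 / (q : ℝ) :=
    fun k _ => norm_ph_some q r b k
  rw [sum_congr rfl this, sum_const, card_univ, nsmul_eq_mul]

lemma norm_ph_w0 (q : ℕ) (r : κ → ℤ) (b : ℕ) (hb : b ≠ 0) (c : Option κ) :
    ‖ph q r b c‖ ≤ w0 (1 / (q : ℝ)) c := by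
  cases c with
  | none => exact norm_ph_none q r b hb
  | some k => exact (norm_ph_some q r b k).le

lemma norm_ph_wt (q : ℕ) (r : κ → ℤ) (b : ℕ) (hu : (Fintype.card κ : ℝ) * (1 / (q : ℝ)) ≤ 1 / 3)
    (c : Option κ) : ‖ph q r b c‖ ≤ wt (1 / (q : ℝ)) c := by
  by_cases hb : b = 0
  · subst hb
    rw [ph_zero, Complex.norm_real, Real.norm_eq_abs, abs_of_nonneg]
    exact wt_nonneg (by positivity) (hu.trans (by norm_num)) c
  · cases c with
    | none =>
      refine (norm_ph_none q r b hb).trans ?_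
      simp only [wt]
      linarith
    | some k => exact (norm_ph_some q r b k).le

lemma sum_ph (q : ℕ) (r : κ → ℤ) (b : ℕ) : ∑ c, ph q r b c = if b = 0 then 1 else 0 := by
  rw [Fintype.sum_option]
  simp only [ph]
  ring

/-- Fourier coefficients of a function of the colouring -/
noncomputable def cF (PP : Finset ℕ) (res : ℕ → κ → ℤ) (F : Col PP.card κ → ℝ)
    (b : Fin PP.card → ℕ) : ℂ :=
  ∑ x : Col PP.card κ, (F x : ℂ) * ∏ i, ph (emb PP i) (res (emb PP i)) (b i) (x i)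

/-- frequency -/
noncomputable def xi (PP : Finset ℕ) (b : Fin PP.card → ℕ) : ℝ :=
  ∑ i, (b i : ℝ) / (emb PP i : ℕ)

/-- all frequencies -/
noncomputable def Bs (PP : Finset ℕ) : Finset (Fin PP.card → ℕ) :=
  Fintype.piFinset (fun i => range (emb PP i))

theorem F_exp {PP : Finset ℕ} (hP : ∀ p ∈ PP, p.Prime) {res : ℕ → κ → ℤ}
    (hinj : ∀ p ∈ PP, ∀ k l, k ≠ l → ¬ ((p : ℤ) ∣ res p k - res p l)) (F : Col PP.card κ → ℝ)
    (a : ℤ) :
    (F (colr PP res a) : ℂ) = ∑ b ∈ Bs PP, cF PP res F b * ee ((a : ℝ) * xi PP b) := by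
  have h1 : ∀ b ∈ Bs PP, cF PP res F b * ee ((a : ℝ) * xi PP b) =
      ∑ x : Col PP.card κ, (F x : ℂ) * ∏ i, (ph (emb PP i) (res (emb PP i)) (b i) (x i) *
        ee ((a : ℝ) * ((b i : ℝ) / (emb PP i : ℕ)))) := by
    intro b _
    unfold cF xi
    rw [mul_sum, ee_sumq, sum_mul]
    apply sum_congr rfl
    intro x _
    rw [mul_assoc, ← prod_mul_distrib]
  rw [sum_congr rfl h1, sum_comm]
  have h2 : ∀ x : Col PP.card κ, ∑ b ∈ Bs PP, (F x : ℂ) *
      ∏ i, (ph (emb PP i) (res (emb PP i)) (b i) (x i) * ee ((a : ℝ) * ((b i : ℝ) / (emb PP i : ℕ)))) =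
      (F x : ℂ) * ∏ i, (if colr PP res a i = x i then 1 else 0) := by
    intro x
    rw [← mul_sum]
    congr 1
    unfold Bs
    rw [← Finset.prod_univ_sum (fun i : Fin PP.card => range (emb PP i))
      (fun i b => ph (emb PP i) (res (emb PP i)) b (x i) * ee ((a : ℝ) * ((b : ℝ) / (emb PP i : ℕ))))]
    exact prod_congr rfl fun i _ => ph_inv hP hinj a i (x i)
  rw [sum_congr rfl fun x _ => h2 x, sum_eq_single (colr PP res a)]
  · simp
  · intro x _ hx
    have : ∃ i, colr PP res a i ≠ x i := by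
      by_contra h
      push Not at h
      exact hx (funext fun i => (h i).symm)
    obtain ⟨i, hi⟩ := this
    rw [prod_eq_zero (mem_univ i) (if_neg hi), mul_zero]
  · intro h
    exact absurd (mem_univ _) h

theorem cF_zero {PP : Finset ℕ} {res : ℕ → κ → ℤ} (F : Col PP.card κ → ℝ) :
    cF PP res F (fun _ => 0) = ((EE (fun i => 1 / ((emb PP i : ℕ) : ℝ)) F : ℝ) : ℂ) := by
  unfold cF EE
  push_cast
  apply sum_congr rfl
  intro x _
  rw [mul_comm]
  congr 1
  apply prod_congr rfl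
  intro i _
  rw [ph_zero]

theorem cF_norm {PP : Finset ℕ} {res : ℕ → κ → ℤ} (F : Col PP.card κ → ℝ)
    (hu : ∀ i, (Fintype.card κ : ℝ) * (1 / ((emb PP i : ℕ) : ℝ)) ≤ 1 / 3)
    (b : Fin PP.card → ℕ) (i₀ : Fin PP.card) (hb : b i₀ ≠ 0) :
    ‖cF PP res F b‖ ≤ ∑ x, |F x| * ∏ i, (if i = i₀ then w0 (1 / ((emb PP i : ℕ) : ℝ)) (x i) else
      wt (1 / ((emb PP i : ℕ) : ℝ)) (x i)) := by
  unfold cF
  refine (norm_sum_le _ _).trans ?_
  apply sum_le_sum
  intro x _
  rw [norm_mul, Complex.norm_real, Real.norm_eq_abs, norm_prod]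
  apply mul_le_mul_of_nonneg_left _ (abs_nonneg _)
  apply prod_le_prod (fun _ _ => norm_nonneg _)
  intro i _
  split_ifs with hi
  · rw [hi]
    exact norm_ph_w0 _ _ _ hb _
  · exact norm_ph_wt _ _ _ (hu i) _

theorem cF_level {PP : Finset ℕ} (hP : ∀ p ∈ PP, p.Prime) {res : ℕ → κ → ℤ} (F : Col PP.card κ → ℝ)
    (Qt B : ℝ) (hF : Lv (fun i => ((emb PP i : ℕ) : ℝ)) Qt B F) (b : Fin PP.card → ℕ)
    (hb : cF PP res F b ≠ 0) : ((∏ i with b i ≠ 0, emb PP i : ℕ) : ℝ) ≤ Qt := by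
  obtain ⟨f, hf1, _, hf3⟩ := hF
  have h1 : cF PP res F b = ∑ D, (f D : ℂ) * ∏ i, ∑ c,
      (if D i ≠ none → c = D i then (1 : ℂ) else 0) * ph (emb PP i) (res (emb PP i)) (b i) c := by
    unfold cF
    have e1 : ∀ x : Col PP.card κ, (F x : ℂ) * ∏ i, ph (emb PP i) (res (emb PP i)) (b i) (x i) =
        ∑ D, (f D : ℂ) * ∏ i, ((if D i ≠ none → x i = D i then (1 : ℂ) else 0) *
          ph (emb PP i) (res (emb PP i)) (b i) (x i)) := by
      intro x
      rw [hf1 x]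
      push_cast
      rw [sum_mul]
      apply sum_congr rfl
      intro D _
      rw [ind_eq_prod, prod_mul_distrib]
      push_cast
      rw [mul_assoc]
      congr 2
      apply prod_congr rfl
      intro i _
      split_ifs <;> simp
    rw [sum_congr rfl fun x _ => e1 x, sum_comm]
    apply sum_congr rfl
    intro D _
    rw [← mul_sum]
    congr 1
    have h2 := Finset.prod_univ_sum (fun _ : Fin PP.card => (Finset.univ : Finset (Option κ)))
      (fun i c => (if D i ≠ none → c = D i then (1 : ℂ) else 0) *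
        ph (emb PP i) (res (emb PP i)) (b i) c)
    rw [Fintype.piFinset_univ] at h2
    exact h2.symm
  have h2 : ∃ D, (f D : ℂ) * ∏ i, ∑ c,
      (if D i ≠ none → c = D i then (1 : ℂ) else 0) * ph (emb PP i) (res (emb PP i)) (b i) c ≠ 0 := by
    by_contra h
    push Not at h
    apply hb
    rw [h1]
    exact sum_eq_zero fun D _ => h D
  obtain ⟨D, hD⟩ := h2
  have hfD : f D ≠ 0 := by
    intro h
    rw [h] at hD
    simp at hD
  have h3 : ∀ i, b i ≠ 0 → D i ≠ none := by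
    intro i hi hDi
    apply hD
    apply mul_eq_zero_of_right
    apply prod_eq_zero (mem_univ i)
    have : ∀ c : Option κ, (if D i ≠ none → c = D i then (1 : ℂ) else 0) = 1 := by
      intro c
      rw [if_pos]
      intro h
      exact absurd hDi h
    simp only [this, one_mul]
    rw [sum_ph, if_neg hi]
  refine le_trans ?_ (hf3 D hfD)
  unfold qq
  rw [prod_nu1]
  push_cast
  apply Finset.prod_le_prod_of_subset_of_one_le
  · intro i hi
    rw [mem_filter] at hi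
    rw [mem_supp]
    exact h3 i hi.2
  · intro i _
    positivity
  · intro i _ _
    have := (hP _ (emb_mem PP i)).one_lt.le
    exact_mod_cast this

/-- the exponential sum of a set -/
noncomputable def Sx (A : Finset ℕ) (x : ℝ) : ℂ := ∑ a ∈ A, ee ((a : ℝ) * x)

theorem Sx_ls {PP : Finset ℕ} (hP : ∀ p ∈ PP, p.Prime) (A : Finset ℕ) (M R : ℕ) (hA : A ⊆ Icc 1 M)
    (hR : 1 ≤ R) (T : Finset (Fin PP.card → ℕ)) (hT : ∀ b ∈ T, b ∈ Bs PP)
    (hTR : ∀ b ∈ T, ∏ i with b i ≠ 0, emb PP i ≤ R) :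
    ∑ b ∈ T, ‖Sx A (xi PP b)‖ ^ 2 ≤ 6 * ((M : ℝ) + (R : ℝ) ^ 2) * A.card := by
  classical
  have h1 := ls_general T (xi PP) (R ^ 2) M (Nat.one_le_pow _ _ hR) (by
    intro b hb b' hb' hne
    have e1 := Fintype.mem_piFinset.mp (hT b hb)
    have e2 := Fintype.mem_piFinset.mp (hT b' hb')
    exact sepq (fun i => emb PP i) (fun i => hP _ (emb_mem PP i)) (emb PP).injective R b b'
      (fun i => mem_range.mp (e1 i)) (fun i => mem_range.mp (e2 i)) (hTR b hb) (hTR b' hb') hne)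
    (fun n => if n ∈ A then 1 else 0)
  have h2 : ∀ x : ℝ, ∑ n ∈ Icc 1 M, (if n ∈ A then (1 : ℂ) else 0) * ee (n * x) = Sx A x := by
    intro x
    unfold Sx
    simp only [ite_mul, one_mul, zero_mul]
    rw [sum_ite_mem, inter_eq_right.mpr hA]
  have h3 : ∑ n ∈ Icc 1 M, ‖(if n ∈ A then (1 : ℂ) else 0)‖ ^ 2 = A.card := by
    have : ∀ n ∈ Icc 1 M, ‖(if n ∈ A then (1 : ℂ) else 0)‖ ^ 2 = if n ∈ A then (1 : ℝ) else 0 := by
      intro n _
      split_ifs <;> simp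
    rw [sum_congr rfl this, sum_ite_mem, inter_eq_right.mpr hA]
    simp
  simp only [h2] at h1
  rw [h3] at h1
  refine h1.trans (le_of_eq ?_)
  push_cast
  ring

theorem diffmain {PP : Finset ℕ} (hP : ∀ p ∈ PP, p.Prime) {res : ℕ → κ → ℤ}
    (hinj : ∀ p ∈ PP, ∀ k l, k ≠ l → ¬ ((p : ℤ) ∣ res p k - res p l)) (F : Col PP.card κ → ℝ)
    (Qt B : ℝ) (hF : Lv (fun i => ((emb PP i : ℕ) : ℝ)) Qt B F)
    (hu : ∀ i, (Fintype.card κ : ℝ) * (1 / ((emb PP i : ℕ) : ℝ)) ≤ 1 / 3) (E m : ℝ) (hE0 : 0 ≤ E)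
    (hE : ∀ i₀, ∑ x, |F x| * ∏ i, (if i = i₀ then w0 (1 / ((emb PP i : ℕ) : ℝ)) (x i) else
      wt (1 / ((emb PP i : ℕ) : ℝ)) (x i)) ≤ E)
    (hm : m ≤ EE (fun i => 1 / ((emb PP i : ℕ) : ℝ)) F) (R : ℕ) (hR : 1 ≤ R) (hQR : Qt ≤ R)
    (A A' : Finset ℕ) (M : ℕ) (hA : A ⊆ Icc 1 M) (hA' : A' ⊆ Icc 1 M)
    (hbig : 3 * E * ((M : ℝ) + (R : ℝ) ^ 2) * (A.card + A'.card) < m * (A.card * A'.card)) :
    ∃ a ∈ A, ∃ a' ∈ A', 0 < F (colr PP res ((a : ℤ) - a')) := by
  classical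
  by_contra hcon
  push Not at hcon
  set T : Finset (Fin PP.card → ℕ) := (Bs PP).filter (fun b => ∏ i with b i ≠ 0, emb PP i ≤ R) with hT
  have hzero : (fun _ => 0 : Fin PP.card → ℕ) ∈ T := by
    rw [hT, mem_filter]
    refine ⟨?_, ?_⟩
    · unfold Bs
      rw [Fintype.mem_piFinset]
      intro i
      exact mem_range.mpr (hP _ (emb_mem PP i)).pos
    · simpa using hR
  have hexp : ∀ a : ℤ, (F (colr PP res a) : ℂ) = ∑ b ∈ T, cF PP res F b * ee ((a : ℝ) * xi PP b) := by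
    intro a
    rw [F_exp hP hinj, hT, sum_filter]
    apply sum_congr rfl
    intro b _
    split_ifs with h
    · rfl
    · have : cF PP res F b = 0 := by
        by_contra h0
        apply h
        have := cF_level hP F Qt B hF b h0
        exact_mod_cast this.trans hQR
      rw [this, zero_mul]
  have hsum : ((∑ a ∈ A, ∑ a' ∈ A', F (colr PP res ((a : ℤ) - a')) : ℝ) : ℂ) =
      ∑ b ∈ T, cF PP res F b * (Sx A (xi PP b) * (starRingEnd ℂ) (Sx A' (xi PP b))) := by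
    push_cast
    have e1 : ∀ a ∈ A, ∀ a' ∈ A', (F (colr PP res ((a : ℤ) - a')) : ℂ) =
        ∑ b ∈ T, cF PP res F b * (ee ((a : ℝ) * xi PP b) *
          (starRingEnd ℂ) (ee ((a' : ℝ) * xi PP b))) := by
      intro a _ a' _
      rw [hexp]
      apply sum_congr rfl
      intro b _
      rw [ls_conj_ee, ← ls_ee_add]
      congr 2
      push_cast
      ring
    rw [sum_congr rfl fun a ha => sum_congr rfl fun a' ha' => e1 a ha a' ha']
    rw [sum_congr rfl fun a (_ : a ∈ A) => sum_comm, sum_comm]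
    apply sum_congr rfl
    intro b _
    unfold Sx
    rw [map_sum, sum_mul_sum, mul_sum]
    apply sum_congr rfl
    intro a _
    rw [mul_sum]
  rw [← add_sum_erase T _ hzero] at hsum
  have h0 : cF PP res F (fun _ => 0) * (Sx A (xi PP (fun _ => 0)) *
      (starRingEnd ℂ) (Sx A' (xi PP (fun _ => 0)))) =
      ((EE (fun i => 1 / ((emb PP i : ℕ) : ℝ)) F * (A.card * A'.card) : ℝ) : ℂ) := by
    have e1 : xi PP (fun _ => 0) = 0 := by
      unfold xi
      simp
    have e2 : ∀ C : Finset ℕ, Sx C 0 = C.card := by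
      intro C
      unfold Sx
      simp [ls_ee_zero]
    rw [cF_zero, e1, e2, e2]
    push_cast
    simp
  rw [h0] at hsum
  set X : ℝ := ∑ a ∈ A, ∑ a' ∈ A', F (colr PP res ((a : ℤ) - a')) with hX
  have hX0 : X ≤ 0 := sum_nonpos fun a ha => sum_nonpos fun a' ha' => hcon a ha a' ha'
  set Y : ℂ := ∑ b ∈ T.erase (fun _ => 0), cF PP res F b *
    (Sx A (xi PP b) * (starRingEnd ℂ) (Sx A' (xi PP b))) with hY
  have hYn : ‖Y‖ ≤ 3 * E * ((M : ℝ) + (R : ℝ) ^ 2) * (A.card + A'.card) := by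
    rw [hY]
    refine (norm_sum_le _ _).trans ?_
    have e1 : ∀ b ∈ T.erase (fun _ => 0), ‖cF PP res F b *
        (Sx A (xi PP b) * (starRingEnd ℂ) (Sx A' (xi PP b)))‖ ≤
        E * (1 / 2 * (‖Sx A (xi PP b)‖ ^ 2 + ‖Sx A' (xi PP b)‖ ^ 2)) := by
      intro b hb
      have hb0 : b ≠ fun _ => 0 := ne_of_mem_erase hb
      obtain ⟨i₀, hi₀⟩ : ∃ i, b i ≠ 0 := by
        by_contra h
        push Not at h
        exact hb0 (funext h)
      rw [norm_mul, norm_mul, RCLike.norm_conj]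
      have e2 := (cF_norm (res := res) F hu b i₀ hi₀).trans (hE i₀)
      have e3 : ‖Sx A (xi PP b)‖ * ‖Sx A' (xi PP b)‖ ≤
          1 / 2 * (‖Sx A (xi PP b)‖ ^ 2 + ‖Sx A' (xi PP b)‖ ^ 2) := by
        nlinarith [sq_nonneg (‖Sx A (xi PP b)‖ - ‖Sx A' (xi PP b)‖)]
      exact mul_le_mul e2 e3 (by positivity) hE0
    refine (sum_le_sum e1).trans ?_
    rw [← mul_sum, ← mul_sum, sum_add_distrib]
    have e4 : ∀ C : Finset ℕ, C ⊆ Icc 1 M → ∑ b ∈ T.erase (fun _ => 0), ‖Sx C (xi PP b)‖ ^ 2 ≤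
        6 * ((M : ℝ) + (R : ℝ) ^ 2) * C.card := by
      intro C hC
      refine le_trans (sum_le_sum_of_subset_of_nonneg (erase_subset _ _)
        fun b _ _ => sq_nonneg _) ?_
      exact Sx_ls hP C M R hC hR T (fun b hb => (mem_filter.mp hb).1) fun b hb => (mem_filter.mp hb).2
    have e5 := e4 A hA
    have e6 := e4 A' hA'
    calc E * (1 / 2 * (∑ b ∈ T.erase (fun _ => 0), ‖Sx A (xi PP b)‖ ^ 2 +
          ∑ b ∈ T.erase (fun _ => 0), ‖Sx A' (xi PP b)‖ ^ 2))
        ≤ E * (1 / 2 * (6 * ((M : ℝ) + (R : ℝ) ^ 2) * A.card +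
          6 * ((M : ℝ) + (R : ℝ) ^ 2) * A'.card)) := by
          apply mul_le_mul_of_nonneg_left _ hE0
          linarith
      _ = _ := by ring
  have h1 : (X : ℂ) - ((EE (fun i => 1 / ((emb PP i : ℕ) : ℝ)) F * (A.card * A'.card) : ℝ) : ℂ) = Y := by
    rw [hsum]
    ring
  have h2 : |X - EE (fun i => 1 / ((emb PP i : ℕ) : ℝ)) F * (A.card * A'.card)| ≤
      3 * E * ((M : ℝ) + (R : ℝ) ^ 2) * (A.card + A'.card) := by
    rw [← Real.norm_eq_abs, ← Complex.norm_real, Complex.ofReal_sub, h1]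
    exact hYn
  have h3 := (abs_le.mp h2).1
  have h4 : m * (A.card * A'.card) ≤ EE (fun i => 1 / ((emb PP i : ℕ) : ℝ)) F * (A.card * A'.card) :=
    mul_le_mul_of_nonneg_right hm (by positivity)
  linarith

end fourier

end Pool.Agent.U642.DS
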