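import Pool.Agent.H256R2.SC.J

set_option autoImplicit false
set_option linter.unusedSectionVars false
set_option linter.unusedVariables false

/-! # The covering sieve, twisted at one index (helper642)

The first moment of `|F|` with the weight of one index replaced by the absolute values of the
nontrivial Fourier coefficients. -/

namespace Pool.Agent.U642.DS

open Finset Pool.Agent.H256R2.SC

variable {n : ℕ} {κ : Type} [Fintype κ] [DecidableEq κ]

/-- twisted factor -/
noncomputable def tG (g : ℝ) (c : Option κ) : ℝ :=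
  match c with
  | none => (Fintype.card κ : ℝ) * g / (1 - (Fintype.card κ : ℝ) * g)
  | some _ => 1

/-- bound of the twisted factor -/
noncomputable def tB (g : ℝ) (c : Option κ) : ℝ :=
  match c with
  | none => 5 * ((Fintype.card κ : ℝ) * g)
  | some _ => 4 * g

/-- twisted weight -/
noncomputable def w0 (g : ℝ) (c : Option κ) : ℝ :=
  match c with
  | none => (Fintype.card κ : ℝ) * g
  | some _ => g

theorem local_tw (g : ℝ) (hg : 0 ≤ g) (hu3 : (Fintype.card κ : ℝ) * g ≤ 1 / 3) (Y : Option κ → ℝ) :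
    ∑ c, wt g c * tG g c * (∑ a, psi1 g a c * Y a) ^ 2 ≤ ∑ a, tB g a * (Y a) ^ 2 := by
  rw [Fintype.sum_option, inner_none]
  simp only [inner_some]
  rw [Fintype.sum_option]
  simp only [wt, tG, tB]
  set u : ℝ := (Fintype.card κ : ℝ) with hu
  set S := ∑ k, Y (some k) with hSd
  set T := ∑ k, Y (some k) ^ 2 with hT
  have hu0 : 0 ≤ u := Nat.cast_nonneg _
  have hS : S ^ 2 ≤ u * T := by
    have := sq_sum_le_card_mul_sum_sq (s := (univ : Finset κ)) (f := fun k => Y (some k))
    rw [card_univ] at this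
    exact this
  have hT0 : 0 ≤ T := sum_nonneg fun _ _ => sq_nonneg _
  have h1 : ∑ k, g * 1 * (Y none - g * S + Y (some k)) ^ 2 ≤
      3 * g * (u * Y none ^ 2) + 3 * g * (u * (g * S) ^ 2) + 3 * g * T := by
    have h2 : ∀ k, g * 1 * (Y none - g * S + Y (some k)) ^ 2 ≤
        3 * g * Y none ^ 2 + 3 * g * (g * S) ^ 2 + 3 * g * Y (some k) ^ 2 := by
      intro k
      have e : (Y none - g * S + Y (some k)) ^ 2 ≤
          3 * (Y none ^ 2 + (g * S) ^ 2 + Y (some k) ^ 2) := by
        nlinarith [sq_nonneg (Y none + g * S), sq_nonneg (Y none - Y (some k)),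
          sq_nonneg (g * S + Y (some k))]
      nlinarith
    refine (sum_le_sum fun k _ => h2 k).trans (le_of_eq ?_)
    rw [sum_add_distrib, sum_const, card_univ, nsmul_eq_mul, ← mul_sum]
    ring
  have h3 : (1 - u * g) * (u * g / (1 - u * g)) = u * g := by
    field_simp [show (1 - u * g) ≠ 0 by linarith]
  have h3' : (1 - u * g) ≠ 0 := by linarith
  have h4 : (1 - u * g) * (u * g / (1 - u * g)) * (Y none - g * S) ^ 2 ≤
      2 * (u * g) * Y none ^ 2 + 2 * (u * g) * (g * S) ^ 2 := by
    rw [mul_div_cancel₀ _ h3']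
    have e : (Y none - g * S) ^ 2 ≤ 2 * (Y none ^ 2 + (g * S) ^ 2) := by
      nlinarith [sq_nonneg (Y none + g * S)]
    have := mul_nonneg hu0 hg
    nlinarith
  have h5 : 5 * (u * g) * (g * S) ^ 2 ≤ g * T := by
    have e1 : (g * S) ^ 2 ≤ g ^ 2 * (u * T) := by
      rw [mul_pow]
      exact mul_le_mul_of_nonneg_left hS (sq_nonneg g)
    have e2 : 5 * (u * g) * (g * S) ^ 2 ≤ 5 * (u * g) * (g ^ 2 * (u * T)) :=
      mul_le_mul_of_nonneg_left e1 (by positivity)
    have e3 : 5 * (u * g) * (g ^ 2 * (u * T)) = 5 * (u * g) ^ 2 * (g * T) := by ring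
    have e4 : (u * g) ^ 2 ≤ 1 / 9 := by
      have := mul_nonneg hu0 hg
      nlinarith
    have e5 : 0 ≤ g * T := mul_nonneg hg hT0
    nlinarith
  have h6 : ∑ k, 4 * g * Y (some k) ^ 2 = 4 * g * T := by rw [← mul_sum]
  rw [h6]
  nlinarith

theorem sum_upd (i₀ : Fin n) (f : Col n κ → ℝ) :
    ∑ D, f D = ∑ D with D i₀ = none, ∑ c, f (Function.update D i₀ c) := by
  rw [← Finset.sum_product']
  refine Finset.sum_nbij' (fun D => (Function.update D i₀ none, D i₀))
    (fun x => Function.update x.1 i₀ x.2) ?_ ?_ ?_ ?_ ?_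
  · intro D _
    simp
  · intro x _
    exact mem_univ _
  · intro D _
    simp
  · rintro ⟨D, c⟩ hx
    rw [mem_product, mem_filter] at hx
    have h := hx.1.2
    simp only at h
    simp only [Function.update_idem, Function.update_self, Prod.mk.injEq, and_true]
    rw [← h, Function.update_eq_self]
  · intro D _
    simp

theorem fib_upd (D : Col n κ) (i₀ : Fin n) (hD : D i₀ = none) (k l : κ) :
    fib (Function.update D i₀ (some k)) l = if l = k then insert i₀ (fib D l) else fib D l := by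
  ext i
  by_cases hi : i = i₀
  · subst hi
    split_ifs with h
    · subst h
      simp [fib]
    · simp only [fib, mem_filter, mem_univ, true_and, Function.update_self, hD, reduceCtorEq,
        iff_false, Option.some.injEq]
      exact fun e => h e.symm
  · split_ifs with h
    · simp [fib, hi]
    · simp [fib, hi]

theorem al_insert {p g : Fin n → ℝ} {h : Finset (Fin n) → ℝ} {z K : ℝ} (H : Hyp p g h z K)
    (s : Finset (Fin n)) (i : Fin n) : |al h (insert i s)| ≤ |al h s| := by
  have h1 : |al h (insert i s)| = h (insert i s) := by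
    unfold al
    rw [if_neg (insert_ne_empty i s), abs_neg, abs_mul, abs_pow, abs_neg, abs_one, one_pow, one_mul,
      abs_of_nonneg (H.h0 _)]
  rw [h1]
  by_cases hs : s = ∅
  · rw [hs]
    simp only [al, if_true, abs_one]
    exact H.h1 _
  · have h2 : |al h s| = h s := by
      unfold al
      rw [if_neg hs, abs_neg, abs_mul, abs_pow, abs_neg, abs_one, one_pow, one_mul,
        abs_of_nonneg (H.h0 _)]
    rw [h2]
    exact H.anti s _ (nonempty_iff_ne_empty.mpr hs) (subset_insert i s)

theorem yy_upd {p g : Fin n → ℝ} {h : Finset (Fin n) → ℝ} {z K : ℝ} (H : Hyp p g h z K)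
    (D : Col n κ) (i₀ : Fin n) (hD : D i₀ = none) (c : Option κ) :
    (yy h (Function.update D i₀ c)) ^ 2 ≤ (yy h D) ^ 2 := by
  cases c with
  | none =>
    rw [← hD, Function.update_eq_self]
  | some k =>
    apply sq_le_sq.mpr
    unfold yy
    rw [abs_prod, abs_prod]
    apply prod_le_prod (fun _ _ => abs_nonneg _)
    intro l _
    rw [fib_upd D i₀ hD]
    split_ifs with hl
    · exact al_insert H _ _
    · exact le_rfl

theorem prod_upd (β : Fin n → Option κ → ℝ) (D : Col n κ) (i₀ : Fin n) (c : Option κ) :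
    ∏ i, β i (Function.update D i₀ c i) = β i₀ c * ∏ i ∈ univ.erase i₀, β i (D i) := by
  rw [← mul_prod_erase univ _ (mem_univ i₀), Function.update_self]
  congr 1
  apply prod_congr rfl
  intro i hi
  rw [Function.update_of_ne (ne_of_mem_erase hi)]

theorem tw_moment {p g : Fin n → ℝ} {h : Finset (Fin n) → ℝ} {z K : ℝ} (H : Hyp p g h z K)
    (i₀ : Fin n) (Q : ℝ) (G' β' : Fin n → Option κ → ℝ) (C : ℝ) (hC0 : 0 ≤ C)
    (hw : ∀ i (c : Option κ), 0 ≤ wt (g i) c) (hG' : ∀ i c, 0 ≤ G' i c) (hGC : ∀ c, G' i₀ c ≤ C)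
    (hβ' : ∀ i c, 0 ≤ β' i c) (hβ1 : 1 ≤ β' i₀ none)
    (hloc : ∀ i (Y : Option κ → ℝ),
      ∑ c, wt (g i) c * G' i c * (∑ a, psi1 (g i) a c * Y a) ^ 2 ≤ ∑ a, β' i a * (Y a) ^ 2)
    (hu3 : (Fintype.card κ : ℝ) * g i₀ ≤ 1 / 3) :
    EE g (fun x => (∏ i, (if i = i₀ then tG (g i) (x i) else 1) * G' i (x i)) *
      (VV g (yT p h Q : Col n κ → ℝ) x) ^ 2) ≤
      C * (9 * ((Fintype.card κ : ℝ) * g i₀)) * ∑ D : Col n κ, (∏ i, β' i (D i)) * (yy h D) ^ 2 := by
  set u : ℝ := (Fintype.card κ : ℝ) with hu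
  have hu0 : 0 ≤ u := Nat.cast_nonneg _
  have hg0 : 0 ≤ g i₀ := (H.g0 i₀).le
  have hug0 : 0 ≤ u * g i₀ := mul_nonneg hu0 hg0
  have htG0 : ∀ c : Option κ, 0 ≤ tG (g i₀) c := by
    intro c
    cases c with
    | none =>
      simp only [tG]
      exact div_nonneg hug0 (by linarith)
    | some k => simp only [tG]; norm_num
  have htB0 : ∀ c : Option κ, 0 ≤ tB (g i₀) c := by
    intro c
    cases c with
    | none =>
      simp only [tB]
      positivity
    | some k => simp only [tB]; positivity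
  set β : Fin n → Option κ → ℝ := fun i c => if i = i₀ then C * tB (g i) c else β' i c with hβd
  have hβ0 : ∀ i c, 0 ≤ β i c := by
    intro i c
    simp only [hβd]
    split_ifs with hi
    · rw [hi]; exact mul_nonneg hC0 (htB0 c)
    · exact hβ' i c
  have h1 := tensor_upper (κ := κ) g
    (fun i c => (if i = i₀ then tG (g i) c else 1) * G' i c) β hw
    (by
      intro i c
      split_ifs with hi
      · rw [hi]; exact mul_nonneg (htG0 c) (hG' i₀ c)
      · exact mul_nonneg zero_le_one (hG' i c))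
    hβ0
    (by
      intro i Y
      by_cases hi : i = i₀
      · subst hi
        simp only [hβd, if_true]
        calc ∑ c, wt (g i) c * (tG (g i) c * G' i c) * (∑ a, psi1 (g i) a c * Y a) ^ 2
            ≤ ∑ c, C * (wt (g i) c * tG (g i) c * (∑ a, psi1 (g i) a c * Y a) ^ 2) := by
              apply sum_le_sum
              intro c _
              have e1 : 0 ≤ wt (g i) c * tG (g i) c * (∑ a, psi1 (g i) a c * Y a) ^ 2 :=
                mul_nonneg (mul_nonneg (hw i c) (htG0 c)) (sq_nonneg _)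
              have e2 := mul_le_mul_of_nonneg_left (hGC c) e1
              calc _ = wt (g i) c * tG (g i) c * (∑ a, psi1 (g i) a c * Y a) ^ 2 * G' i c := by ring
                _ ≤ _ := e2
                _ = _ := by ring
          _ = C * ∑ c, wt (g i) c * tG (g i) c * (∑ a, psi1 (g i) a c * Y a) ^ 2 := by
              rw [mul_sum]
          _ ≤ C * ∑ a, tB (g i) a * (Y a) ^ 2 :=
              mul_le_mul_of_nonneg_left (local_tw (g i) hg0 hu3 Y) hC0
          _ = _ := by
              rw [mul_sum]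
              exact sum_congr rfl fun a _ => by ring
      · simp only [hβd, if_neg hi, one_mul]
        exact hloc i Y)
    (yT p h Q)
  refine h1.trans ?_
  have h2 : ∑ D : Col n κ, (∏ i, β i (D i)) * (yT p h Q D) ^ 2 ≤
      ∑ D : Col n κ, (∏ i, β i (D i)) * (yy h D) ^ 2 := by
    apply sum_le_sum
    intro D _
    apply mul_le_mul_of_nonneg_left
    · unfold yT
      split_ifs
      · exact le_rfl
      · simpa using sq_nonneg (yy h D)
    · exact prod_nonneg fun i _ => hβ0 i _
  refine h2.trans ?_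
  rw [sum_upd i₀]
  have h3 : ∀ D : Col n κ, D i₀ = none →
      ∑ c, (∏ i, β i (Function.update D i₀ c i)) * (yy h (Function.update D i₀ c)) ^ 2 ≤
        C * (9 * (u * g i₀)) * ((∏ i, β' i (D i)) * (yy h D) ^ 2) := by
    intro D hD
    set Pe : ℝ := ∏ i ∈ univ.erase i₀, β i (D i) with hPe
    have hPe0 : 0 ≤ Pe := prod_nonneg fun i _ => hβ0 i _
    have e1 : ∀ c, (∏ i, β i (Function.update D i₀ c i)) * (yy h (Function.update D i₀ c)) ^ 2 ≤
        (C * tB (g i₀) c) * (Pe * (yy h D) ^ 2) := by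
      intro c
      rw [prod_upd]
      have : β i₀ c = C * tB (g i₀) c := by simp only [hβd, if_true]
      rw [this]
      have e2 := yy_upd H D i₀ hD c
      have e3 : 0 ≤ C * tB (g i₀) c * Pe := mul_nonneg (mul_nonneg hC0 (htB0 c)) hPe0
      calc _ ≤ C * tB (g i₀) c * Pe * (yy h D) ^ 2 := mul_le_mul_of_nonneg_left e2 e3
        _ = _ := by ring
    refine (sum_le_sum fun c _ => e1 c).trans ?_
    rw [← sum_mul, ← mul_sum]
    have e4 : ∑ c : Option κ, tB (g i₀) c = 9 * (u * g i₀) := by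
      rw [Fintype.sum_option]
      simp only [tB, sum_const, card_univ, nsmul_eq_mul]
      ring
    rw [e4]
    have e5 : Pe ≤ ∏ i, β' i (D i) := by
      rw [← mul_prod_erase univ _ (mem_univ i₀), hD]
      have : Pe = ∏ i ∈ univ.erase i₀, β' i (D i) := by
        apply prod_congr rfl
        intro i hi
        simp only [hβd, if_neg (ne_of_mem_erase hi)]
      rw [← this]
      nlinarith
    apply mul_le_mul_of_nonneg_left _ (by positivity)
    exact mul_le_mul_of_nonneg_right e5 (sq_nonneg _)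
  refine (sum_le_sum fun D hD => h3 D (mem_filter.mp hD).2).trans ?_
  rw [← mul_sum]
  apply mul_le_mul_of_nonneg_left _ (by positivity)
  apply sum_le_sum_of_subset_of_nonneg (filter_subset _ _)
  intro D _ _
  exact mul_nonneg (prod_nonneg fun i _ => hβ' i _) (sq_nonneg _)

lemma w0_eq (g : ℝ) (hu3 : (Fintype.card κ : ℝ) * g ≤ 1 / 3) (c : Option κ) :
    w0 g c = wt g c * tG g c := by
  cases c with
  | none =>
    simp only [w0, wt, tG]
    rw [mul_div_cancel₀ _ (by linarith)]
  | some k => simp [w0, wt, tG]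

theorem modF {p g : Fin n → ℝ} {h : Finset (Fin n) → ℝ} {z K : ℝ} (H : Hyp p g h z K)
    (Q δ : ℝ) (J : ℕ) (hJ : Even J) (hQz : 1 ≤ Q)
    (hpz : ∀ i, p i ≤ z) (hg1 : ∀ i, g i ≤ 1) (htg : ∀ i, 9 * g i ≤ 1)
    (hug3 : ∀ i, (Fintype.card κ : ℝ) * g i ≤ 1 / 3)
    (hδ : ∀ D : Col n κ, qq p D ≤ Q → 2 * ∑ i with D i ≠ none, g i ≤ δ)
    (hug4 : (Fintype.card κ : ℝ) * δ ≤ 1 / 4)
    (hs : 2 * (Fintype.card κ : ℝ) * ∑ i, 1 / (p i) ^ 2 ≤ 1)
    (htail : (Fintype.card κ + 1 : ℝ) * (δ ^ 2 + Real.exp (2 * (Fintype.card κ : ℝ) * K / Real.log z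
      - Real.log (Q / z) / Real.log z)) ≤ 1 / 8)
    (hmom : (Fintype.card κ : ℝ) * (1 / 3) ^ J * Real.exp ((2 + 6 * 3) * ∑ i, g i) ≤ 1 / 8) :
    ∃ (F : Col n κ → ℝ) (Z B : ℝ), 1 ≤ Z ∧ Z / 2 ≤ EE g F ∧ Lv p (Q ^ 2 * z ^ J) B F ∧
      (∀ x, 0 < F x → ∀ k, ∃ i, x i = some k) ∧
      ∀ i₀, ∑ x, |F x| * ∏ i, (if i = i₀ then w0 (g i) (x i) else wt (g i) (x i)) ≤
        14 * ((Fintype.card κ : ℝ) + 1) ^ 2 * g i₀ * Z := by
  set u : ℝ := (Fintype.card κ : ℝ) with hu
  have hu0 : 0 ≤ u := Nat.cast_nonneg _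
  have hug : ∀ i, u * g i ≤ 1 := fun i => (hug3 i).trans (by norm_num)
  have hQ0 : 0 < Q := by linarith
  have hz0 : 0 < z := by linarith [H.z1]
  set E : ℝ := Real.exp (2 * u * K / Real.log z - Real.log (Q / z) / Real.log z) with hE
  set Z : ℝ := Zs κ g h with hZ
  have hZ1 : 1 ≤ Z := Zs_ge_one H
  have hE0 : 0 < E := Real.exp_pos _
  have hp1 : ∀ i, 1 ≤ p i := fun i => (H.p1 i).le
  have hT : ∑ D : Col n κ with Q / z < qq p D, (yy h D) ^ 2 * nu g D ≤ E * Z :=
    tail_bound H (Q / z) (by positivity)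
  have hE8 : E ≤ 1 / 8 := by
    have : δ ^ 2 + E ≤ (u + 1) * (δ ^ 2 + E) := by nlinarith [sq_nonneg δ]
    nlinarith [sq_nonneg δ]
  have hT8 : E * Z ≤ 1 / 8 * Z := by nlinarith
  set V : Col n κ → ℝ := VV g (yT p h Q) with hV
  have hlow : 3 / 4 * Z ≤ EE g (fun x => (V x) ^ 2) :=
    second_lower H Q δ (E * Z) hug hδ hug4 hQ0 hT hT8
  have hup : ∀ k, EE g (fun x => (V x) ^ 2 * SS J k x) ≤
      δ ^ 2 * Z + E * Z + (1 / 3) ^ J * (Real.exp ((2 + 6 * 3) * ∑ i, g i) * Z) := fun k =>
    second_upper H Q δ 3 (E * Z) J hJ (by norm_num)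
      (fun i => by have := htg i; linarith) hug hQ0 hδ hT k
  set F : Col n κ → ℝ := fun x => V x ^ 2 * (1 - ∑ k, SS J k x) with hF
  have hEF : Z / 2 ≤ EE g F := by
    have e1 : EE g F = EE g (fun x => (V x) ^ 2) - ∑ k, EE g (fun x => (V x) ^ 2 * SS J k x) := by
      rw [← EE_sum, ← EE_sub]
      congr 1
      funext x
      rw [hF]
      simp only
      rw [← Finset.mul_sum]
      ring
    rw [e1]
    have e2 : ∑ k : κ, EE g (fun x => (V x) ^ 2 * SS J k x) ≤
        u * (δ ^ 2 * Z + E * Z + (1 / 3) ^ J * (Real.exp ((2 + 6 * 3) * ∑ i, g i) * Z)) := by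
      refine (Finset.sum_le_sum (fun k _ => hup k)).trans ?_
      rw [Finset.sum_const, Finset.card_univ, nsmul_eq_mul]
    have e3 : u * (δ ^ 2 * Z + E * Z) ≤ 1 / 8 * Z := by
      have : u * (δ ^ 2 + E) ≤ 1 / 8 := by nlinarith [sq_nonneg δ]
      nlinarith
    have e4 : u * ((1 / 3) ^ J * (Real.exp ((2 + 6 * 3) * ∑ i, g i) * Z)) ≤ 1 / 8 * Z := by
      nlinarith
    nlinarith
  have hzJ : (1:ℝ) ≤ z ^ J := one_le_pow₀ H.z1.le
  have hVL : Lv p Q (3 * Q ^ 2) V := by
    refine Lv_mono le_rfl (count_assign (κ := κ) p hp1 hs Q hQ0) ?_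
    refine Lv_VV p g hp1 (fun i => (H.g0 i).le) hg1 (yT p h Q) ?_ Q ?_
    · intro D
      unfold yT
      split_ifs
      · exact yy_abs_le H.h0 H.h1 D
      · simp
    · intro D hD
      by_contra hc
      exact hD (by unfold yT; rw [if_neg hc])
  have hSL : Lv p (z ^ J) (1 + u * (n + 1) ^ J) (fun x : Col n κ => 1 - ∑ k, SS J k x) := by
    have e1 : Lv p (z ^ J) 1 (fun _ : Col n κ => (1:ℝ)) :=
      Lv_mono hzJ (by simp) (Lv_const p 1)
    have e2 := Lv_sum (p := p) (Q := z ^ J) (univ : Finset κ) (fun _ => ((n:ℝ) + 1) ^ J)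
      (fun k => (SS J k : Col n κ → ℝ)) (fun k _ => Lv_SS p hp1 z hpz H.z1.le J k)
    have e3 := Lv_sub e1 e2
    refine Lv_mono le_rfl ?_ e3
    rw [Finset.sum_const, Finset.card_univ, nsmul_eq_mul]
  have hFL : Lv p (Q ^ 2 * z ^ J) (9 * Q ^ 4 * (1 + u * (n + 1) ^ J)) F := by
    have e1 := Lv_mul hp1 (Lv_mul hp1 hVL hVL) hSL
    have e2 : F = fun x => V x * V x * (1 - ∑ k, SS J k x) := by
      rw [hF]; funext x; ring
    rw [e2]
    refine Lv_mono (le_of_eq (by ring)) (le_of_eq (by ring)) e1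
  have hSS0 : ∀ l (x : Col n κ), 0 ≤ SS J l x := by
    intro l x
    refine le_trans ?_ (SS_lower J hJ l x)
    split_ifs <;> norm_num
  refine ⟨F, Z, _, hZ1, hEF, hFL, ?_, ?_⟩
  · intro x hFa k
    by_contra hk
    push Not at hk
    have hV0 : 0 ≤ V x ^ 2 := sq_nonneg _
    have h1 : 0 < 1 - ∑ k, SS J k x := by
      by_contra hc
      push Not at hc
      have : F x ≤ 0 := mul_nonpos_of_nonneg_of_nonpos hV0 hc
      linarith
    have h2 : SS J k x ≤ ∑ l, SS J l x :=
      Finset.single_le_sum (fun l _ => hSS0 l x) (Finset.mem_univ k)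
    have h3 := SS_lower J hJ k x
    rw [if_pos hk] at h3
    linarith
  · intro i₀
    have hw : ∀ i (c : Option κ), 0 ≤ wt (g i) c := fun i c => wt_nonneg (H.g0 i).le (hug i) c
    have hg0 : 0 ≤ g i₀ := (H.g0 i₀).le
    have htG0 : ∀ c : Option κ, 0 ≤ tG (g i₀) c := by
      intro c
      cases c with
      | none =>
        simp only [tG]
        have := hug3 i₀
        exact div_nonneg (mul_nonneg hu0 hg0) (by linarith)
      | some k => simp only [tG]; norm_num
    have h0 : ∀ x : Col n κ, ∏ i, (if i = i₀ then w0 (g i) (x i) else wt (g i) (x i)) =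
        (∏ i, wt (g i) (x i)) * ∏ i, (if i = i₀ then tG (g i) (x i) else 1) := by
      intro x
      rw [← prod_mul_distrib]
      apply prod_congr rfl
      intro i _
      split_ifs with hi
      · rw [hi, w0_eq (g i₀) (hug3 i₀)]
      · rw [mul_one]
    have h1 : ∑ x, |F x| * ∏ i, (if i = i₀ then w0 (g i) (x i) else wt (g i) (x i)) =
        EE g (fun x => (∏ i, (if i = i₀ then tG (g i) (x i) else 1)) * |F x|) := by
      unfold EE
      apply sum_congr rfl
      intro x _
      rw [h0]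
      ring
    rw [h1]
    have h2 : EE g (fun x => (∏ i, (if i = i₀ then tG (g i) (x i) else 1)) * |F x|) ≤
        EE g (fun x => (1 + u) * ((∏ i, (if i = i₀ then tG (g i) (x i) else 1) * 1) *
          V x ^ 2) + ∑ k : κ, (1 / 3 : ℝ) ^ J * ((∏ i, (if i = i₀ then tG (g i) (x i) else 1) *
            (if x i = some k then 1 + 3 else 1)) * V x ^ 2)) := by
      apply EE_mono hw
      intro x
      set T : ℝ := ∏ i, (if i = i₀ then tG (g i) (x i) else 1) with hTd
      have hT0 : 0 ≤ T := prod_nonneg fun i _ => by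
        split_ifs with hi
        · rw [hi]; exact htG0 _
        · norm_num
      have e1 : |F x| ≤ V x ^ 2 * (1 + ∑ k, SS J k x) := by
        rw [hF]
        simp only
        rw [abs_mul, abs_of_nonneg (sq_nonneg (V x))]
        apply mul_le_mul_of_nonneg_left _ (sq_nonneg _)
        have := sum_nonneg fun (l : κ) (_ : l ∈ univ) => hSS0 l x
        rw [abs_le]
        constructor <;> linarith
      have e2 : ∑ k, SS J k x ≤ u + ∑ k : κ, (1 / 3 : ℝ) ^ J *
          ∏ i, (if x i = some k then (1:ℝ) + 3 else 1) := by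
        have e3 : ∀ k : κ, SS J k x ≤ 1 + (1 / 3 : ℝ) ^ J *
            ∏ i, (if x i = some k then (1:ℝ) + 3 else 1) := by
          intro k
          refine (SS_upper J hJ 3 (by norm_num) k x).trans ?_
          have : (if ∀ i, x i ≠ some k then (1 : ℝ) else 0) ≤ 1 := by split_ifs <;> norm_num
          linarith
        refine (sum_le_sum fun k _ => e3 k).trans (le_of_eq ?_)
        rw [sum_add_distrib, sum_const, card_univ, nsmul_eq_mul, mul_one]
      calc T * |F x| ≤ T * (V x ^ 2 * (1 + ∑ k, SS J k x)) := mul_le_mul_of_nonneg_left e1 hT0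
        _ ≤ T * (V x ^ 2 * (1 + (u + ∑ k : κ, (1 / 3 : ℝ) ^ J *
          ∏ i, (if x i = some k then (1:ℝ) + 3 else 1)))) := by
            apply mul_le_mul_of_nonneg_left _ hT0
            apply mul_le_mul_of_nonneg_left _ (sq_nonneg _)
            linarith
        _ = _ := by
            simp only [prod_mul_distrib, prod_const_one, mul_one, ← hTd]
            have e5 : ∑ k : κ, (1 / 3 : ℝ) ^ J * (T * (∏ i, (if x i = some k then (1:ℝ) + 3 else 1)) *
                V x ^ 2) = T * V x ^ 2 * ∑ k : κ, (1 / 3 : ℝ) ^ J *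
                  ∏ i, (if x i = some k then (1:ℝ) + 3 else 1) := by
              rw [mul_sum]
              exact sum_congr rfl fun k _ => by ring
            rw [e5]
            ring
    refine h2.trans ?_
    rw [EE_add, EE_smul, EE_sum]
    have h3 : EE g (fun x => (∏ i, (if i = i₀ then tG (g i) (x i) else 1) * 1) * V x ^ 2) ≤
        1 * (9 * (u * g i₀)) * Z := by
      have := tw_moment (κ := κ) H i₀ Q (fun _ _ => 1) (fun i c => nu1 (g i) c) 1 (by norm_num) hw
        (fun _ _ => by norm_num) (fun _ => le_rfl)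
        (by
          intro i c
          cases c with
          | none => simp [nu1]
          | some k => simp only [nu1]; exact (H.g0 i).le)
        (by simp [nu1])
        (fun i Y => by
          have := local_upper (g i) (H.g0 i).le Y
          simpa using this)
        (hug3 i₀)
      refine this.trans (le_of_eq ?_)
      congr 1
      rw [hZ]
      unfold Zs nu
      exact sum_congr rfl fun D _ => by ring
    have h4 : ∀ k : κ, EE g (fun x => (1 / 3 : ℝ) ^ J * ((∏ i, (if i = i₀ then tG (g i) (x i) else 1) *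
            (if x i = some k then 1 + 3 else 1)) * V x ^ 2)) ≤
        (1 / 3 : ℝ) ^ J * (4 * (9 * (u * g i₀)) * (Real.exp ((2 + 6 * 3) * ∑ i, g i) * Z)) := by
      intro k
      rw [EE_smul]
      apply mul_le_mul_of_nonneg_left _ (by positivity)
      have := tw_moment (κ := κ) H i₀ Q (fun _ c => if c = some k then 1 + 3 else 1)
        (fun i c => bet (g i) 3 k c) 4 (by norm_num) hw
        (fun _ c => by split_ifs <;> norm_num) (fun c => by split_ifs <;> norm_num)
        (by
          intro i c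
          cases c with
          | none =>
            simp only [bet]
            have := (H.g0 i).le
            positivity
          | some l =>
            simp only [bet]
            have := (H.g0 i).le
            split_ifs
            · positivity
            · exact this)
        (by simp only [bet]; linarith)
        (fun i Y => local_wt (g i) 3 (H.g0 i).le (by norm_num) (by have := htg i; linarith) k Y)
        (hug3 i₀)
      refine this.trans ?_
      apply mul_le_mul_of_nonneg_left _ (by positivity)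
      exact weighted_sum H 3 (by norm_num) k
    have h5 : ∑ k : κ, EE g (fun x => (1 / 3 : ℝ) ^ J * ((∏ i, (if i = i₀ then tG (g i) (x i) else 1) *
            (if x i = some k then 1 + 3 else 1)) * V x ^ 2)) ≤
        u * ((1 / 3 : ℝ) ^ J * (4 * (9 * (u * g i₀)) * (Real.exp ((2 + 6 * 3) * ∑ i, g i) * Z))) := by
      refine (sum_le_sum fun k _ => h4 k).trans (le_of_eq ?_)
      rw [sum_const, card_univ, nsmul_eq_mul]
    have h6 : u * ((1 / 3 : ℝ) ^ J * (4 * (9 * (u * g i₀)) * (Real.exp ((2 + 6 * 3) * ∑ i, g i) * Z)))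
        ≤ 1 / 8 * (36 * (u * g i₀) * Z) := by
      calc _ = (u * (1 / 3 : ℝ) ^ J * Real.exp ((2 + 6 * 3) * ∑ i, g i)) * (36 * (u * g i₀) * Z) := by
            ring
        _ ≤ _ := by
            apply mul_le_mul_of_nonneg_right hmom
            positivity
    have h7 : (1 + u) * EE g (fun x => (∏ i, (if i = i₀ then tG (g i) (x i) else 1) * 1) * V x ^ 2) ≤
        (1 + u) * (1 * (9 * (u * g i₀)) * Z) := mul_le_mul_of_nonneg_left h3 (by linarith)
    have h8 : (1 + u) * (1 * (9 * (u * g i₀)) * Z) + 1 / 8 * (36 * (u * g i₀) * Z) ≤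
        14 * (u + 1) ^ 2 * g i₀ * Z := by
      have e : 0 ≤ g i₀ * Z := mul_nonneg hg0 (by linarith)
      have e2 : (1 + u) * (9 * u) + 1 / 8 * (36 * u) ≤ 14 * (u + 1) ^ 2 := by nlinarith
      calc _ = ((1 + u) * (9 * u) + 1 / 8 * (36 * u)) * (g i₀ * Z) := by ring
        _ ≤ 14 * (u + 1) ^ 2 * (g i₀ * Z) := mul_le_mul_of_nonneg_right e2 e
        _ = _ := by ring
    linarith

end Pool.Agent.U642.DS
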