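import Pool.Agent.U642.DS.Soft2
import Pool.Agent.U642.DS.Surv

set_option autoImplicit false
set_option linter.unusedVariables false

/-! # The rigid part (helper642): choice of the two residue classes -/

namespace Pool.Agent.U642.DS

open Finset Filter

open scoped Classical

theorem cop_q (X : ℝ) (S : Finset ℕ) (hS : ∀ p ∈ S, p.Prime ∧ 2 < p) :
    Nat.Coprime (q2 X S) (∏ p ∈ S, p) := by
  apply Nat.Coprime.prod_right
  intro p hp
  apply Nat.Coprime.symm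
  rw [Nat.Prime.coprime_iff_not_dvd (hS p hp).1]
  intro hd
  unfold q2 at hd
  rw [(hS p hp).1.dvd_mul] at hd
  rcases hd with hd | hd
  · have := (Nat.prime_dvd_prime_iff_eq (hS p hp).1 Nat.prime_two).mp
      ((hS p hp).1.dvd_of_dvd_pow hd)
    have := (hS p hp).2
    omega
  · unfold P2 at hd
    obtain ⟨r, hr, hrd⟩ := (Prime.dvd_finsetProd_iff (hS p hp).1.prime _).mp hd
    rw [mem_filter] at hr
    have := (Nat.prime_dvd_prime_iff_eq (hS p hp).1 hr.2.1).mp hrd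
    rw [← this] at hr
    exact hr.2.2 hp

/-- the residue class modulo the product -/
noncomputable def rc {q₂ P₁ : ℕ} (h : Nat.Coprime q₂ P₁) (ρ s : ℕ) : ℕ :=
  (Nat.chineseRemainder h ρ s : ℕ)

theorem rc_spec {q₂ P₁ : ℕ} (h : Nat.Coprime q₂ P₁) (h2 : 0 < q₂) (h1 : 0 < P₁) (ρ s : ℕ) :
    rc h ρ s ≡ ρ [MOD q₂] ∧ rc h ρ s ≡ s [MOD P₁] ∧ rc h ρ s < q₂ * P₁ :=
  ⟨(Nat.chineseRemainder h ρ s).2.1, (Nat.chineseRemainder h ρ s).2.2,
    Nat.chineseRemainder_lt_mul h ρ s h2.ne' h1.ne'⟩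

theorem rc_mod {q₂ P₁ : ℕ} (h : Nat.Coprime q₂ P₁) (h2 : 0 < q₂) (h1 : 0 < P₁) (ρ a : ℕ)
    (ha : a % q₂ = ρ) : a % (q₂ * P₁) = rc h ρ (a % P₁) := by
  obtain ⟨e1, e2, e3⟩ := rc_spec h h2 h1 ρ (a % P₁)
  have h3 : a ≡ rc h ρ (a % P₁) [MOD q₂ * P₁] := by
    rw [← Nat.modEq_and_modEq_iff_modEq_mul h]
    refine ⟨?_, ?_⟩
    · have : a ≡ ρ [MOD q₂] := by rw [← ha]; exact (Nat.mod_modEq a q₂).symm
      exact this.trans e1.symm
    · exact (Nat.mod_modEq a P₁).symm.trans e2.symm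
  have h4 : a % (q₂ * P₁) = rc h ρ (a % P₁) % (q₂ * P₁) := h3
  rw [h4, Nat.mod_eq_of_lt e3]

theorem UU_congr (S : Finset ℕ) (K : Finset (ℕ × ℤ)) (m m' : ℤ) (h : ∀ p ∈ S, (p : ℤ) ∣ m - m') :
    UU S K m = UU S K m' := by
  unfold UU
  apply filter_congr
  intro k _
  have e : ∀ p ∈ S, ((p : ℤ) ∣ (k.1 : ℤ) * m + k.2 ↔ (p : ℤ) ∣ (k.1 : ℤ) * m' + k.2) := by
    intro p hp
    have e1 : (k.1 : ℤ) * m + k.2 = ((k.1 : ℤ) * m' + k.2) + k.1 * (m - m') := by ring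
    rw [e1]
    exact dvd_add_left (Dvd.dvd.mul_left (h p hp) _)
  constructor
  · intro h1 p hp h2
    exact h1 p hp ((e p hp).mpr h2)
  · intro h1 p hp h2
    exact h1 p hp ((e p hp).mp h2)

theorem rc_diff {q₂ : ℕ} {S : Finset ℕ} (h : Nat.Coprime q₂ (∏ p ∈ S, p)) (h2 : 0 < q₂)
    (h1 : 0 < ∏ p ∈ S, p) (ρ s s' : ℕ) :
    ∀ p ∈ S, (p : ℤ) ∣ ((s : ℤ) - s') - ((rc h ρ s : ℤ) - rc h ρ s') := by
  intro p hp
  have e1 : ((∏ p ∈ S, p : ℕ) : ℤ) ∣ (s : ℤ) - rc h ρ s :=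
    (Nat.modEq_iff_dvd).mp (rc_spec h h2 h1 ρ s).2.1
  have e2 : ((∏ p ∈ S, p : ℕ) : ℤ) ∣ (s' : ℤ) - rc h ρ s' :=
    (Nat.modEq_iff_dvd).mp (rc_spec h h2 h1 ρ s').2.1
  have e3 : (p : ℤ) ∣ ((∏ p ∈ S, p : ℕ) : ℤ) := by
    have : p ∣ ∏ p ∈ S, p := dvd_prod_of_mem (fun p => p) hp
    exact_mod_cast this
  have e4 := dvd_sub (e3.trans e1) (e3.trans e2)
  have e5 : (s : ℤ) - rc h ρ s - ((s' : ℤ) - rc h ρ s') =
      ((s : ℤ) - s') - ((rc h ρ s : ℤ) - rc h ρ s') := by ring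
  rwa [e5] at e4

theorem card_class (A : Finset ℕ) (N q r : ℕ) (hA : A ⊆ Icc 1 N) :
    (A.filter (fun a => a % q = r)).card ≤ N / q + 1 := by
  have h : ((A.filter (fun a => a % q = r)).image (fun a => a / q)) ⊆ range (N / q + 1) := by
    intro t ht
    obtain ⟨a, ha, rfl⟩ := mem_image.mp ht
    have h1 := (mem_Icc.mp (hA (mem_filter.mp ha).1)).2
    rw [mem_range]
    exact Nat.lt_succ_of_le (Nat.div_le_div_right h1)
  have h2 := card_le_card h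
  rw [card_range, card_image_of_injOn] at h2
  · exact h2
  · intro a ha b hb hab
    have h1 := (mem_filter.mp (mem_coe.mp ha)).2
    have h2 := (mem_filter.mp (mem_coe.mp hb)).2
    simp only at hab
    rw [← Nat.div_add_mod a q, ← Nat.div_add_mod b q, h1, h2, hab]

/-- pigeonhole over the classes modulo `q₂` -/
theorem pig (A : Finset ℕ) (R : Finset ℕ) (q₂ : ℕ) (hR : ∀ a ∈ A, a % q₂ ∈ R) (hA : A.Nonempty) :
    ∃ ρ ∈ R, (A.card : ℝ) ≤ R.card * (A.filter (fun a => a % q₂ = ρ)).card := by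
  have hne : R.Nonempty := by
    obtain ⟨a, ha⟩ := hA
    exact ⟨_, hR a ha⟩
  by_contra hcon
  push Not at hcon
  have h1 : A.card = ∑ ρ ∈ R, (A.filter (fun a => a % q₂ = ρ)).card :=
    card_eq_sum_card_fiberwise hR
  have h2 : ∑ ρ ∈ R, (R.card : ℝ) * (A.filter (fun a => a % q₂ = ρ)).card <
      ∑ ρ ∈ R, (A.card : ℝ) := sum_lt_sum_of_nonempty hne hcon
  rw [← mul_sum, sum_const, nsmul_eq_mul] at h2
  have h3 : ∑ ρ ∈ R, ((A.filter (fun a => a % q₂ = ρ)).card : ℝ) = A.card := by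
    rw [h1]
    push_cast
    rfl
  rw [h3] at h2
  exact lt_irrefl _ h2

/-- the popular classes -/
theorem popular (A : Finset ℕ) (q₂ P₁ ρ : ℕ) (hcop : Nat.Coprime q₂ P₁) (h2 : 0 < q₂) (h1 : 0 < P₁)
    (U : Finset ℕ) (hU : ∀ a ∈ A, a % P₁ ∈ U) (Bd τ : ℝ) (hBd : ∀ s ∈ U,
      ((A.filter (fun a => a % (q₂ * P₁) = rc hcop ρ s)).card : ℝ) ≤ Bd) :
    ((A.filter (fun a => a % q₂ = ρ)).card : ℝ) ≤
      (U.filter (fun s => τ ≤ ((A.filter (fun a => a % (q₂ * P₁) = rc hcop ρ s)).card : ℝ))).card * Bd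
        + U.card * (max τ 0) := by
  have h3 : A.filter (fun a => a % q₂ = ρ) ⊆
      U.biUnion (fun s => A.filter (fun a => a % (q₂ * P₁) = rc hcop ρ s)) := by
    intro a ha
    rw [mem_filter] at ha
    rw [mem_biUnion]
    exact ⟨a % P₁, hU a ha.1, mem_filter.mpr ⟨ha.1, rc_mod hcop h2 h1 ρ a ha.2⟩⟩
  have h4 : ((A.filter (fun a => a % q₂ = ρ)).card : ℝ) ≤
      ∑ s ∈ U, ((A.filter (fun a => a % (q₂ * P₁) = rc hcop ρ s)).card : ℝ) := by
    have := (card_le_card h3).trans card_biUnion_le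
    exact_mod_cast this
  refine h4.trans ?_
  rw [← sum_filter_add_sum_filter_not U
    (fun s => τ ≤ ((A.filter (fun a => a % (q₂ * P₁) = rc hcop ρ s)).card : ℝ))]
  apply add_le_add
  · refine (sum_le_sum fun s hs => hBd s (mem_filter.mp hs).1).trans (le_of_eq ?_)
    rw [sum_const, nsmul_eq_mul]
  · refine (sum_le_sum fun s hs => (?_ : _ ≤ max τ 0)).trans ?_
    · have := (mem_filter.mp hs).2
      push Not at this
      exact this.le.trans (le_max_left _ _)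
    · rw [sum_const, nsmul_eq_mul]
      apply mul_le_mul_of_nonneg_right _ (le_max_right _ _)
      exact_mod_cast card_le_card (filter_subset _ _)

theorem rigidI (X : ℝ) (S : Finset ℕ) (hS : ∀ p ∈ S, p.Prime ∧ 2 < p) (N : ℕ) (A : Finset ℕ)
    (hA : A ⊆ Icc 1 N) (hA0 : A.Nonempty) (K : Finset (ℕ × ℤ)) (hK : ∀ k ∈ K, ∀ p ∈ S, ¬ p ∣ k.1)
    (q : ℕ) (hq : q = q2 X S * ∏ p ∈ S, p) (hqN : q ≤ N) :
    ∃ r r' : ℕ, r ≡ r' [MOD q2 X S] ∧
      (A.card : ℝ) / (2 * q) ≤ (A.filter (fun a => a % q = r)).card ∧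
      (A.card : ℝ) / (2 * q) ≤ (A.filter (fun a => a % q = r')).card ∧
      ((UU S K ((r : ℤ) - r')).card : ℝ) * A.card ≤ 4 * N * (K.card * ∏ p ∈ S, (1 - 1 / (p : ℝ))) := by
  set P₁ : ℕ := ∏ p ∈ S, p with hP₁
  set q₂ : ℕ := q2 X S with hq₂
  have hcop : Nat.Coprime q₂ P₁ := cop_q X S hS
  have h2 : 0 < q₂ := q2_pos X S
  have h1 : 0 < P₁ := prod_pos fun p hp => (hS p hp).1.pos
  have hq0 : 0 < q := by rw [hq]; exact Nat.mul_pos h2 h1
  have hqR : (0 : ℝ) < q := by exact_mod_cast hq0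
  have h2R : (0 : ℝ) < q₂ := by exact_mod_cast h2
  have h1R : (0 : ℝ) < P₁ := by exact_mod_cast h1
  have hN0 : (0 : ℝ) < N := by exact_mod_cast lt_of_lt_of_le hq0 hqN
  have hqe : (q : ℝ) = q₂ * P₁ := by rw [hq]; push_cast; rfl
  have hAc : (0 : ℝ) < A.card := by exact_mod_cast card_pos.mpr hA0
  obtain ⟨ρ, _, hρ⟩ := pig A (range q₂) q₂ (fun a _ => mem_range.mpr (Nat.mod_lt _ h2)) hA0
  rw [card_range] at hρ
  have hBd : ∀ s ∈ range P₁,
      ((A.filter (fun a => a % (q₂ * P₁) = rc hcop ρ s)).card : ℝ) ≤ 2 * (N / q) := by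
    intro s _
    rw [← hq]
    have e1 := card_class A N q (rc hcop ρ s) hA
    have e2 : ((A.filter (fun a => a % q = rc hcop ρ s)).card : ℝ) ≤ ((N / q : ℕ) : ℝ) + 1 := by
      exact_mod_cast e1
    have e3 : ((N / q : ℕ) : ℝ) ≤ (N : ℝ) / q := Nat.cast_div_le
    have e4 : (1 : ℝ) ≤ (N : ℝ) / q := by
      rw [le_div_iff₀ hqR, one_mul]
      exact_mod_cast hqN
    linarith
  set τ : ℝ := (A.card : ℝ) / (2 * q) with hτ
  have hτ0 : 0 ≤ τ := by positivity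
  have hpop := popular A q₂ P₁ ρ hcop h2 h1 (range P₁)
    (fun a _ => mem_range.mpr (Nat.mod_lt _ h1)) (2 * (N / q)) τ hBd
  rw [max_eq_left hτ0, card_range] at hpop
  set T : Finset ℕ := (range P₁).filter
    (fun s => τ ≤ ((A.filter (fun a => a % (q₂ * P₁) = rc hcop ρ s)).card : ℝ)) with hT
  have hTc : (A.card : ℝ) * P₁ ≤ 4 * N * T.card := by
    have e1 : (A.card : ℝ) ≤ q₂ * (T.card * (2 * (N / q)) + P₁ * τ) :=
      hρ.trans (mul_le_mul_of_nonneg_left hpop h2R.le)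
    have e2 : (q₂ : ℝ) * (T.card * (2 * (N / q)) + P₁ * τ) = 2 * N * T.card / P₁ + A.card / 2 := by
      rw [hτ, hqe]
      field_simp
    rw [e2] at e1
    have e3 : (A.card : ℝ) / 2 ≤ 2 * N * T.card / P₁ := by linarith
    rw [le_div_iff₀ h1R] at e3
    linarith
  have hTne : T.Nonempty := by
    rw [← card_pos]
    by_contra h
    have : T.card = 0 := by omega
    rw [this] at hTc
    have : 0 < (A.card : ℝ) * P₁ := by positivity
    simp only [Nat.cast_zero, mul_zero] at hTc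
    linarith
  obtain ⟨s, hs, s', hs', hss⟩ := avgI S (fun p hp => (hS p hp).1) K hK T
    (filter_subset _ _) hTne
  refine ⟨rc hcop ρ s, rc hcop ρ s', ?_, ?_, ?_, ?_⟩
  · exact ((rc_spec hcop h2 h1 ρ s).1).trans ((rc_spec hcop h2 h1 ρ s').1).symm
  · have := (mem_filter.mp hs).2
    rw [← hq] at this
    exact this
  · have := (mem_filter.mp hs').2
    rw [← hq] at this
    exact this
  · rw [← UU_congr S K ((s : ℤ) - s') _ (rc_diff hcop h2 h1 ρ s s')]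
    set u : ℝ := ((UU S K ((s : ℤ) - s')).card : ℝ) with hu
    have hu0 : 0 ≤ u := Nat.cast_nonneg _
    have e1 : ∏ p ∈ S, ((p : ℝ) - 1) = P₁ * ∏ p ∈ S, (1 - 1 / (p : ℝ)) := by
      rw [hP₁]
      push_cast
      rw [← prod_mul_distrib]
      apply prod_congr rfl
      intro p hp
      have : (p : ℝ) ≠ 0 := by exact_mod_cast (hS p hp).1.ne_zero
      field_simp
    rw [e1] at hss
    have e2 : u * ((A.card : ℝ) * P₁) ≤ u * (4 * N * T.card) := mul_le_mul_of_nonneg_left hTc hu0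
    have e3 : u * (4 * N * T.card) = 4 * N * (u * T.card) := by ring
    have e4 : 4 * (N : ℝ) * (u * T.card) ≤
        4 * N * (K.card * (P₁ * ∏ p ∈ S, (1 - 1 / (p : ℝ)))) :=
      mul_le_mul_of_nonneg_left hss (by positivity)
    have e5 : (u * A.card) * P₁ ≤ (4 * N * (K.card * ∏ p ∈ S, (1 - 1 / (p : ℝ)))) * P₁ := by
      calc (u * A.card) * P₁ = u * ((A.card : ℝ) * P₁) := by ring
        _ ≤ 4 * N * (K.card * (P₁ * ∏ p ∈ S, (1 - 1 / (p : ℝ)))) := by rw [← e3] at e4; linarith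
        _ = _ := by ring
    exact le_of_mul_le_mul_right e5 h1R

end Pool.Agent.U642.DS
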