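import Pool.Agent.U642.DS.Cov
import Pool.Agent.U642.DS.Avg
import Pool.Agent.H256R2.SC.Par

set_option autoImplicit false
set_option linter.unusedVariables false

/-! # From two dense residue classes to a difference far from all primes (helper642) -/

namespace Pool.Agent.U642.DS

open Finset Filter Pool.Agent.H256R2.SC

open scoped Classical

/-- exponent of `2` in the modulus -/
noncomputable def kk (X : ℝ) : ℕ := ⌈Real.log X / 100⌉₊

/-- product of the primes up to `log X / 10` outside `S` -/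
noncomputable def P2 (X : ℝ) (S : Finset ℕ) : ℕ :=
  ∏ p ∈ (range (⌊Real.log X / 10⌋₊ + 1)).filter (fun p => p.Prime ∧ p ∉ S), p

/-- the modulus of the common residue class -/
noncomputable def q2 (X : ℝ) (S : Finset ℕ) : ℕ := 2 ^ kk X * P2 X S

/-- the shifts -/
noncomputable def KB (y : ℝ) (S : Finset ℕ) (J L : ℕ) : Finset (ℕ × ℤ) :=
  ((Icc 1 J) ×ˢ (Icc (-(L : ℤ)) L)).filter
    (fun k => ∀ p : ℕ, p.Prime → (p : ℝ) ≤ y → p ∉ S → ¬ (p : ℤ) ∣ k.2)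

theorem P2_mul {X : ℝ} {S : Finset ℕ} (hS : ∀ p ∈ S, p.Prime ∧ (p : ℝ) ≤ Real.log X / 10)
    (hX : 0 ≤ Real.log X) : P2 X S * ∏ p ∈ S, p = primorial ⌊Real.log X / 10⌋₊ := by
  have h1 : S = (range (⌊Real.log X / 10⌋₊ + 1)).filter (fun p => p.Prime ∧ p ∈ S) := by
    ext p
    rw [mem_filter, mem_range]
    constructor
    · intro hp
      refine ⟨?_, (hS p hp).1, hp⟩
      have := Nat.le_floor (hS p hp).2
      omega
    · exact fun h => h.2.2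
  have h2 : ∏ p ∈ S, p = ∏ p ∈ ((range (⌊Real.log X / 10⌋₊ + 1)).filter Nat.Prime).filter
      (fun p => p ∈ S), p := by
    rw [filter_filter]
    exact prod_congr h1 fun _ _ => rfl
  have h3 : P2 X S = ∏ p ∈ ((range (⌊Real.log X / 10⌋₊ + 1)).filter Nat.Prime).filter
      (fun p => p ∉ S), p := by
    rw [filter_filter]
    rfl
  rw [h2, h3, mul_comm]
  exact prod_filter_mul_prod_filter_not
    ((range (⌊Real.log X / 10⌋₊ + 1)).filter Nat.Prime) (fun p => p ∈ S) (fun p => p)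

/-- eventual inequalities -/
theorem ev_soft (J : ℕ) : ∃ X₀ : ℝ, ∀ X : ℝ, X₀ ≤ X →
    1 < X ∧ 2 ≤ Real.log X ∧ 2 * (J : ℝ) < Real.log X ∧ (J : ℝ) + 2 ≤ Real.log X / 10 ∧
    Real.log X / 10 ≤ X ^ (1 / 10000 : ℝ) ∧
    X ^ (1 / 10000 : ℝ) + (Real.log X) ^ 2 < X ^ (1 / 200 : ℝ) ∧ 2 ≤ X ^ (1 / 100 : ℝ) := by
  have h1 : ∀ᶠ X : ℝ in atTop, 1 < X := eventually_gt_atTop 1
  have h2 : ∀ᶠ X : ℝ in atTop, 2 ≤ Real.log X := Real.tendsto_log_atTop.eventually_ge_atTop 2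
  have h3 : ∀ᶠ X : ℝ in atTop, 2 * (J : ℝ) < Real.log X :=
    Real.tendsto_log_atTop.eventually_gt_atTop _
  have h4 : ∀ᶠ X : ℝ in atTop, 10 * ((J : ℝ) + 2) ≤ Real.log X :=
    Real.tendsto_log_atTop.eventually_ge_atTop _
  have h5 : ∀ᶠ X : ℝ in atTop, Real.log X ≤ X ^ (1 / 10000 : ℝ) := by
    have e := (isLittleO_log_rpow_atTop (r := 1 / 10000) (by norm_num)).bound one_pos
    filter_upwards [e, h1] with X hX hX1
    rw [Real.norm_of_nonneg (Real.log_nonneg hX1.le), one_mul,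
      Real.norm_of_nonneg (Real.rpow_nonneg (by linarith) _)] at hX
    exact hX
  have h6 : ∀ᶠ X : ℝ in atTop, 3 < X ^ (1 / 1000 : ℝ) :=
    (tendsto_rpow_atTop (by norm_num)).eventually_gt_atTop _
  have h7 : ∀ᶠ X : ℝ in atTop, 2 ≤ X ^ (1 / 100 : ℝ) :=
    (tendsto_rpow_atTop (by norm_num)).eventually_ge_atTop _
  obtain ⟨X₀, hX₀⟩ := eventually_atTop.1 (h1.and (h2.and (h3.and (h4.and (h5.and (h6.and h7))))))
  refine ⟨X₀, fun X hX => ?_⟩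
  obtain ⟨a1, a2, a3, a4, a5, a6, a7⟩ := hX₀ X hX
  have hX0 : 0 < X := by linarith
  refine ⟨a1, a2, a3, by linarith, by linarith, ?_, a7⟩
  set w : ℝ := X ^ (1 / 10000 : ℝ) with hw
  have hw1 : 1 ≤ w := by
    rw [hw]
    exact Real.one_le_rpow a1.le (by norm_num)
  have e1 : X ^ (1 / 1000 : ℝ) = w ^ 10 := by
    rw [hw, ← Real.rpow_natCast, ← Real.rpow_mul hX0.le]
    norm_num
  have e2 : X ^ (1 / 200 : ℝ) = w ^ 50 := by
    rw [hw, ← Real.rpow_natCast, ← Real.rpow_mul hX0.le]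
    norm_num
  rw [e2]
  rw [e1] at a6
  have e3 : (Real.log X) ^ 2 ≤ w ^ 2 := pow_le_pow_left₀ (by linarith) a5 2
  have e4 : w ^ 2 ≤ w ^ 10 := pow_le_pow_right₀ hw1 (by norm_num)
  have e5 : w ≤ w ^ 10 := by
    calc w = w ^ 1 := (pow_one w).symm
      _ ≤ w ^ 10 := pow_le_pow_right₀ hw1 (by norm_num)
  have e6 : w ^ 20 ≤ w ^ 50 := pow_le_pow_right₀ hw1 (by norm_num)
  have e7 : w ^ 20 = w ^ 10 * w ^ 10 := by ring
  nlinarith

theorem kk_bounds {X : ℝ} (hX : 1 < X) (h2 : 2 ≤ X ^ (1 / 100 : ℝ)) :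
    X ^ (1 / 200 : ℝ) ≤ (2 : ℝ) ^ kk X ∧ (2 : ℝ) ^ kk X ≤ X ^ (1 / 50 : ℝ) := by
  have hX0 : 0 < X := by linarith
  have hl : 0 < Real.log X := Real.log_pos hX
  have h3 : Real.log X / 100 ≤ kk X := Nat.le_ceil _
  have h4 : (kk X : ℝ) < Real.log X / 100 + 1 := Nat.ceil_lt_add_one (by positivity)
  have e1 := Real.log_two_gt_d9
  have e2 := Real.log_two_lt_d9
  have e3 : (2 : ℝ) ^ kk X = Real.exp (Real.log 2 * kk X) := by
    rw [← Real.rpow_natCast, Real.rpow_def_of_pos (by norm_num)]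
  have e4 : ∀ s : ℝ, X ^ s = Real.exp (Real.log X * s) := fun s => Real.rpow_def_of_pos hX0 s
  constructor
  · rw [e3, e4]
    apply Real.exp_le_exp.mpr
    nlinarith
  · have e5 : X ^ (1 / 50 : ℝ) = X ^ (1 / 100 : ℝ) * X ^ (1 / 100 : ℝ) := by
      rw [← Real.rpow_add hX0]
      norm_num
    have e6 : (2 : ℝ) ^ kk X ≤ X ^ (1 / 100 : ℝ) * 2 := by
      have e7 : (2 : ℝ) = Real.exp (Real.log 2) := (Real.exp_log (by norm_num)).symm
      rw [e3, e4]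
      calc Real.exp (Real.log 2 * kk X) ≤ Real.exp (Real.log X * (1 / 100) + Real.log 2) := by
            apply Real.exp_le_exp.mpr
            nlinarith
        _ = Real.exp (Real.log X * (1 / 100)) * 2 := by
            rw [Real.exp_add, Real.exp_log (by norm_num)]
    rw [e5]
    refine e6.trans ?_
    apply mul_le_mul_of_nonneg_left h2
    exact Real.rpow_nonneg hX0.le _

/-- coprimality in `KB` -/
theorem KB_coprime {y : ℝ} {S : Finset ℕ} {J L : ℕ} (hS : ∀ p ∈ S, J + 1 < p)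
    (hy : (J : ℝ) + 2 ≤ y) {k : ℕ × ℤ} (hk : k ∈ KB y S J L) :
    1 ≤ k.1 ∧ k.1 ≤ J ∧ |k.2| ≤ L ∧ IsCoprime (k.1 : ℤ) k.2 := by
  unfold KB at hk
  rw [mem_filter, mem_product, mem_Icc, mem_Icc] at hk
  obtain ⟨⟨⟨h1, h2⟩, h3, h4⟩, h5⟩ := hk
  refine ⟨h1, h2, abs_le.mpr ⟨h3, h4⟩, ?_⟩
  rw [Int.isCoprime_iff_gcd_eq_one]
  by_contra hne
  obtain ⟨p, hp, hpd⟩ := Nat.exists_prime_and_dvd hne
  have h6 : (p : ℤ) ∣ (k.1 : ℤ) := (Int.natCast_dvd_natCast.mpr hpd).trans (Int.gcd_dvd_left _ _)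
  have h7 : (p : ℤ) ∣ k.2 := (Int.natCast_dvd_natCast.mpr hpd).trans (Int.gcd_dvd_right _ _)
  have h8 : p ∣ k.1 := by exact_mod_cast h6
  have h9 : p ≤ J := (Nat.le_of_dvd (by omega) h8).trans h2
  have h10 : (p : ℝ) ≤ J := by exact_mod_cast h9
  refine h5 p hp (by linarith) ?_ h7
  intro hpS
  have := hS p hpS
  omega

theorem KB_inj {y : ℝ} {S : Finset ℕ} {J L : ℕ} (hS : ∀ p ∈ S, J + 1 < p)
    (hy : (J : ℝ) + 2 ≤ y) {k l : ℕ × ℤ} (hk : k ∈ KB y S J L) (hl : l ∈ KB y S J L) (p : ℕ)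
    (hp : 2 * J * L < p) (hd : (p : ℤ) ∣ (k.1 : ℤ) * l.2 - l.1 * k.2) : k = l := by
  obtain ⟨a1, a2, a3, a4⟩ := KB_coprime hS hy hk
  obtain ⟨b1, b2, b3, b4⟩ := KB_coprime hS hy hl
  have h1 : (k.1 : ℤ) * l.2 - l.1 * k.2 = 0 := by
    apply Int.eq_zero_of_abs_lt_dvd hd
    have e1 : |(k.1 : ℤ) * l.2| ≤ J * L := by
      rw [abs_mul]
      apply mul_le_mul _ b3 (abs_nonneg _) (by positivity)
      rw [Nat.abs_cast]
      exact_mod_cast a2
    have e2 : |(l.1 : ℤ) * k.2| ≤ J * L := by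
      rw [abs_mul]
      apply mul_le_mul _ a3 (abs_nonneg _) (by positivity)
      rw [Nat.abs_cast]
      exact_mod_cast b2
    have e3 := abs_sub (a := (k.1 : ℤ) * l.2) (b := (l.1 : ℤ) * k.2)
    have e4 : ((2 * J * L : ℕ) : ℤ) < p := by exact_mod_cast hp
    push_cast at e4
    linarith
  have h2 : (k.1 : ℤ) * l.2 = l.1 * k.2 := by linarith
  have h3 : (k.1 : ℤ) ∣ l.1 := by
    have : (k.1 : ℤ) ∣ l.1 * k.2 := ⟨l.2, h2.symm⟩
    exact a4.dvd_of_dvd_mul_right this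
  have h4 : (l.1 : ℤ) ∣ k.1 := by
    have : (l.1 : ℤ) ∣ k.1 * l.2 := ⟨k.2, h2⟩
    exact b4.dvd_of_dvd_mul_right this
  have h5 : k.1 = l.1 := Nat.dvd_antisymm (by exact_mod_cast h3) (by exact_mod_cast h4)
  have h6 : k.2 = l.2 := by
    rw [h5] at h2
    have : (l.1 : ℤ) ≠ 0 := by
      have : 0 < l.1 := by omega
      exact_mod_cast this.ne'
    exact (mul_left_cancel₀ this h2).symm
  exact Prod.ext h5 h6

theorem inv_exists {p P : ℕ} (hp : p.Prime) (h : ¬ p ∣ P) : ∃ i : ℤ, (p : ℤ) ∣ P * i - 1 := by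
  have hc : IsCoprime (P : ℤ) (p : ℤ) :=
    Nat.isCoprime_iff_coprime.2 ((Nat.Prime.coprime_iff_not_dvd hp).2 h).symm
  obtain ⟨u, v, huv⟩ := hc
  exact ⟨u, -v, by linear_combination huv⟩

/-- the residue classes of the shifts -/
noncomputable def resf (q : ℕ) (m : ℤ) (K : Finset (ℕ × ℤ)) (p : ℕ) (k : K) : ℤ :=
  if h : p.Prime ∧ ¬ p ∣ k.1.1 * q then
    -((inv_exists h.1 h.2).choose) * ((k.1.1 : ℤ) * m + k.1.2) else 0

theorem resf_dvd (q : ℕ) (m : ℤ) (K : Finset (ℕ × ℤ)) (p : ℕ) (k : K) (hp : p.Prime)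
    (hpq : ¬ p ∣ k.1.1 * q) :
    (p : ℤ) ∣ ((k.1.1 : ℤ) * q) * resf q m K p k + ((k.1.1 : ℤ) * m + k.1.2) := by
  have h : p.Prime ∧ ¬ p ∣ k.1.1 * q := ⟨hp, hpq⟩
  unfold resf
  rw [dif_pos h]
  obtain ⟨c, hc⟩ := (inv_exists h.1 h.2).choose_spec
  refine ⟨-c * ((k.1.1 : ℤ) * m + k.1.2), ?_⟩
  push_cast at hc
  linear_combination (-((k.1.1 : ℤ) * m + k.1.2)) * hc

end Pool.Agent.U642.DS
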