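import Pool.Agent.U642.DS.Soft

set_option autoImplicit false
set_option linter.unusedVariables false

/-! # From two dense residue classes to a difference far from all primes, proof (helper642) -/

namespace Pool.Agent.U642.DS

open Finset Filter Pool.Agent.H256R2.SC

open scoped Classical

theorem q_bound {X : ℝ} {S : Finset ℕ} (hS : ∀ p ∈ S, p.Prime ∧ (p : ℝ) ≤ Real.log X / 10)
    (h1 : 1 < X) (k2 : (2 : ℝ) ^ kk X ≤ X ^ (1 / 50 : ℝ)) :
    ((q2 X S * ∏ p ∈ S, p : ℕ) : ℝ) ≤ X ^ (1 / 5 : ℝ) := by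
  have hX0 : 0 < X := by linarith
  have e1 : q2 X S * ∏ p ∈ S, p = 2 ^ kk X * primorial ⌊Real.log X / 10⌋₊ := by
    rw [← P2_mul hS (Real.log_nonneg h1.le)]
    unfold q2
    ring
  rw [e1]
  push_cast
  calc (2 : ℝ) ^ kk X * (primorial ⌊Real.log X / 10⌋₊ : ℝ)
      ≤ X ^ (1 / 50 : ℝ) * X ^ (3 / 20 : ℝ) := by
        apply mul_le_mul k2 (primorial_le_rpow h1.le) (by positivity)
        exact Real.rpow_nonneg hX0.le _
    _ = X ^ (17 / 100 : ℝ) := by
        rw [← Real.rpow_add hX0]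
        norm_num
    _ ≤ X ^ (1 / 5 : ℝ) := Real.rpow_le_rpow_of_exponent_le h1.le (by norm_num)

theorem q2_pos (X : ℝ) (S : Finset ℕ) : 0 < q2 X S := by
  unfold q2 P2
  apply Nat.mul_pos (by positivity)
  apply prod_pos
  intro p hp
  exact ((mem_filter.mp hp).2.1).pos

theorem prime_dvd_q {X : ℝ} {S : Finset ℕ} (hS : ∀ p ∈ S, p.Prime ∧ (p : ℝ) ≤ Real.log X / 10)
    (hX : 0 ≤ Real.log X) (h2 : 2 ≤ Real.log X / 10)
    {p : ℕ} (hp : p.Prime) (hd : p ∣ q2 X S * ∏ p ∈ S, p) : (p : ℝ) ≤ Real.log X / 10 := by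
  unfold q2 at hd
  rw [hp.dvd_mul, hp.dvd_mul] at hd
  rcases hd with (hd | hd) | hd
  · have := (Nat.prime_dvd_prime_iff_eq hp Nat.prime_two).mp (hp.dvd_of_dvd_pow hd)
    rw [this]
    push_cast
    exact h2
  · unfold P2 at hd
    obtain ⟨r, hr, hrd⟩ := (Prime.dvd_finsetProd_iff hp.prime _).mp hd
    rw [mem_filter, mem_range] at hr
    rw [(Nat.prime_dvd_prime_iff_eq hp hr.2.1).mp hrd]
    have : r ≤ ⌊Real.log X / 10⌋₊ := by omega
    exact (Nat.le_floor_iff (by positivity)).mp this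
  · obtain ⟨r, hr, hrd⟩ := (Prime.dvd_finsetProd_iff hp.prime _).mp hd
    rw [(Nat.prime_dvd_prime_iff_eq hp (hS r hr).1).mp hrd]
    exact (hS r hr).2

theorem soft (J K₀ : ℕ) (hJ : 1 ≤ J) : ∃ c : ℝ, 0 < c ∧ ∃ N₀ : ℕ, ∀ N : ℕ, N₀ ≤ N →
    ∀ S : Finset ℕ, (∀ p ∈ S, p.Prime ∧ J + 1 < p ∧ (p : ℝ) ≤ Real.log N / 10) →
    ∀ L : ℕ, 1 ≤ L → (L : ℝ) ≤ (Real.log N) ^ 2 →
    ∀ (A : Finset ℕ), A ⊆ Icc 1 N → ∀ (q : ℕ), q = q2 N S * ∏ p ∈ S, p →
    ∀ r r' : ℕ, r ≡ r' [MOD q2 N S] →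
    (N : ℝ) / (q * (Real.log N) ^ K₀) ≤ (A.filter (fun a => a % q = r)).card →
    (N : ℝ) / (q * (Real.log N) ^ K₀) ≤ (A.filter (fun a => a % q = r')).card →
    ((UU S (KB (Real.log N / 10) S J L) ((r : ℤ) - r')).card : ℝ) ≤ c * Real.log N →
    ∃ a ∈ A, ∃ b ∈ A, b < a ∧ ∀ j ∈ Icc 1 J, ∀ p : ℕ, p.Prime →
      (L : ℝ) < |(p : ℝ) - j * ((a : ℝ) - b)| := by
  obtain ⟨c, hc, X₁, hcov⟩ := coverD (K₀ + 1)
  obtain ⟨X₂, hev⟩ := ev_soft J
  refine ⟨c, hc, ⌈max X₁ X₂⌉₊, ?_⟩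
  intro N hN S hS L hL1 hL A hA q hq r r' hrr hAr hAr' hU
  have hNX : max X₁ X₂ ≤ (N : ℝ) := (Nat.le_ceil _).trans (by exact_mod_cast hN)
  set X : ℝ := (N : ℝ) with hX
  obtain ⟨e1, e2, e3, e4, e5, e6, e7⟩ := hev X ((le_max_right _ _).trans hNX)
  obtain ⟨k1, k2⟩ := kk_bounds e1 e7
  have hX0 : 0 < X := by linarith
  have hl0 : 0 < Real.log X := by linarith
  have hS' : ∀ p ∈ S, p.Prime ∧ (p : ℝ) ≤ Real.log X / 10 := fun p hp => ⟨(hS p hp).1, (hS p hp).2.2⟩
  have hJr : (1:ℝ) ≤ J := by exact_mod_cast hJ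
  have hqX : (q : ℝ) ≤ X ^ (1 / 5 : ℝ) := by
    rw [hq]
    exact q_bound hS' e1 k2
  have hq0 : 0 < q := by
    rw [hq]
    exact Nat.mul_pos (q2_pos X S) (prod_pos fun p hp => (hS p hp).1.pos)
  have hqR : (0 : ℝ) < q := by exact_mod_cast hq0
  set M : ℕ := N / q + 1 with hM
  -- size of M
  have hNq : X ^ (4 / 5 : ℝ) ≤ X / q := by
    rw [le_div_iff₀ hqR]
    calc X ^ (4 / 5 : ℝ) * q ≤ X ^ (4 / 5 : ℝ) * X ^ (1 / 5 : ℝ) :=
          mul_le_mul_of_nonneg_left hqX (Real.rpow_nonneg hX0.le _)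
      _ = X := by rw [← Real.rpow_add hX0]; norm_num
  have hNq1 : 1 ≤ X / q := le_trans (Real.one_le_rpow e1.le (by norm_num)) hNq
  have hM1 : X / q ≤ M := by
    rw [div_le_iff₀ hqR, hM]
    have h := Nat.lt_mul_div_succ N hq0
    have h' : (N : ℝ) < ((q * (N / q + 1) : ℕ) : ℝ) := by exact_mod_cast h
    rw [Nat.cast_mul] at h'
    rw [mul_comm]
    exact h'.le
  have hM2 : (M : ℝ) ≤ 2 * (X / q) := by
    rw [hM]
    push_cast
    have : ((N / q : ℕ) : ℝ) ≤ (N : ℝ) / q := Nat.cast_div_le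
    linarith
  have hMhalf : X ^ (1 / 2 : ℝ) ≤ M := by
    refine le_trans ?_ (hNq.trans hM1)
    exact Real.rpow_le_rpow_of_exponent_le e1.le (by norm_num)
  have hMd : (M : ℝ) / (Real.log X) ^ (K₀ + 1) ≤ X / (q * (Real.log X) ^ K₀) := by
    have h1 : (M : ℝ) / (Real.log X) ^ (K₀ + 1) ≤ 2 * (X / q) / (Real.log X) ^ (K₀ + 1) :=
      div_le_div_of_nonneg_right hM2 (by positivity)
    refine h1.trans ?_
    rw [pow_succ]
    have h2 : 2 * (X / q) / ((Real.log X) ^ K₀ * Real.log X) =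
        (X / (q * (Real.log X) ^ K₀)) * (2 / Real.log X) := by
      field_simp
    rw [h2]
    have h3 : 2 / Real.log X ≤ 1 := by
      rw [div_le_one hl0]
      exact e2
    have h4 : 0 ≤ X / (q * (Real.log X) ^ K₀) := by positivity
    nlinarith
  -- the sets of quotients
  have hT : ∀ s : ℕ, X / (q * (Real.log X) ^ K₀) ≤ (A.filter (fun a => a % q = s)).card →
      ((A.filter (fun a => a % q = s)).image (fun a => a / q + 1) ⊆ Icc 1 M) ∧
      (M : ℝ) / (Real.log X) ^ (K₀ + 1) ≤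
        ((A.filter (fun a => a % q = s)).image (fun a => a / q + 1)).card := by
    intro s hs
    constructor
    · intro t ht
      obtain ⟨a, ha, rfl⟩ := mem_image.mp ht
      rw [mem_filter] at ha
      have h1 := (mem_Icc.mp (hA ha.1)).2
      rw [mem_Icc, hM]
      exact ⟨Nat.le_add_left 1 _, Nat.add_le_add_right (Nat.div_le_div_right h1) 1⟩
    · rw [card_image_of_injOn]
      · exact hMd.trans hs
      · intro a ha b hb hab
        have h1 := (mem_filter.mp (mem_coe.mp ha)).2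
        have h2 := (mem_filter.mp (mem_coe.mp hb)).2
        simp only at hab
        have h3 : a / q = b / q := by omega
        rw [← Nat.div_add_mod a q, ← Nat.div_add_mod b q, h1, h2, h3]
  obtain ⟨hT1, hT2⟩ := hT r hAr
  obtain ⟨hT1', hT2'⟩ := hT r' hAr'
  set m : ℤ := (r : ℤ) - r' with hm
  set KS : Finset (ℕ × ℤ) := UU S (KB (Real.log X / 10) S J L) m with hKS
  have hKS_sub : ∀ k ∈ KS, k ∈ KB (Real.log X / 10) S J L := by
    intro k hk
    rw [hKS] at hk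
    unfold UU at hk
    exact (mem_filter.mp hk).1
  have hSJ : ∀ p ∈ S, J + 1 < p := fun p hp => (hS p hp).2.1
  -- primes above the logarithm power
  have hbigp : ∀ p : ℕ, p.Prime → (Real.log X) ^ (K₀ + 1 + 4) < p → 2 * J * L < p ∧ J < p ∧
      ¬ p ∣ q := by
    intro p hp hpl
    have h1 : (Real.log X) ^ 3 ≤ (Real.log X) ^ (K₀ + 1 + 4) :=
      pow_le_pow_right₀ (by linarith) (by omega)
    have h2 : 2 * (J : ℝ) * L ≤ (Real.log X) ^ 3 := by
      calc 2 * (J : ℝ) * L ≤ Real.log X * (Real.log X) ^ 2 :=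
            mul_le_mul e3.le hL (by positivity) hl0.le
        _ = _ := by ring
    have h3 : Real.log X ≤ (Real.log X) ^ 3 := by
      calc Real.log X = (Real.log X) ^ 1 := (pow_one _).symm
        _ ≤ _ := pow_le_pow_right₀ (by linarith) (by norm_num)
    refine ⟨?_, ?_, ?_⟩
    · have : ((2 * J * L : ℕ) : ℝ) < p := by
        push_cast
        linarith
      exact_mod_cast this
    · have : (J : ℝ) < p := by linarith
      exact_mod_cast this
    · intro hd
      rw [hq] at hd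
      have := prime_dvd_q hS' hl0.le (by linarith) hp hd
      linarith
  have hnd : ∀ p : ℕ, p.Prime → (Real.log X) ^ (K₀ + 1 + 4) < p → ∀ k ∈ KB (Real.log X / 10) S J L,
      ¬ p ∣ k.1 * q := by
    intro p hp hpl k hk hd
    obtain ⟨h1, h2, h3⟩ := hbigp p hp hpl
    obtain ⟨a1, a2, _, _⟩ := KB_coprime hSJ e4 hk
    rcases (hp.dvd_mul).mp hd with h | h
    · have := Nat.le_of_dvd (by omega) h
      omega
    · exact h3 h
  obtain ⟨t, ht, t', ht', hk⟩ := hcov X ((le_max_left _ _).trans hNX) KS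
    (by rw [Fintype.card_coe]; exact hU) (resf q m KS)
    (by
      intro p hp hpl hpz k l hkl hd
      have hkK := hKS_sub k.1 k.2
      have hlK := hKS_sub l.1 l.2
      have h1 := resf_dvd q m KS p k hp (hnd p hp hpl k.1 hkK)
      have h2 := resf_dvd q m KS p l hp (hnd p hp hpl l.1 hlK)
      apply hkl
      apply Subtype.ext
      refine KB_inj hSJ e4 hkK hlK p (hbigp p hp hpl).1 ?_
      have h3 : (p : ℤ) ∣ (k.1.1 : ℤ) * (((l.1.1 : ℤ) * q) * resf q m KS p l +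
            ((l.1.1 : ℤ) * m + l.1.2)) -
          (l.1.1 : ℤ) * (((k.1.1 : ℤ) * q) * resf q m KS p k + ((k.1.1 : ℤ) * m + k.1.2)) +
          (k.1.1 : ℤ) * l.1.1 * q * (resf q m KS p k - resf q m KS p l) :=
        dvd_add (dvd_sub (Dvd.dvd.mul_left h2 _) (Dvd.dvd.mul_left h1 _)) (Dvd.dvd.mul_left hd _)
      have h4 : (k.1.1 : ℤ) * (((l.1.1 : ℤ) * q) * resf q m KS p l +
            ((l.1.1 : ℤ) * m + l.1.2)) -
          (l.1.1 : ℤ) * (((k.1.1 : ℤ) * q) * resf q m KS p k + ((k.1.1 : ℤ) * m + k.1.2)) +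
          (k.1.1 : ℤ) * l.1.1 * q * (resf q m KS p k - resf q m KS p l) =
          (k.1.1 : ℤ) * l.1.2 - l.1.1 * k.1.2 := by ring
      rwa [h4] at h3) M _ _ hMhalf hT1 hT1' hT2 hT2'
  obtain ⟨a, ha, hat⟩ := mem_image.mp ht
  obtain ⟨a', ha', hat'⟩ := mem_image.mp ht'
  rw [mem_filter] at ha ha'
  set d : ℤ := (a : ℤ) - a' with hd
  have hdm : d = m + q * ((t : ℤ) - t') := by
    have h1 := Nat.div_add_mod a q
    have h2 := Nat.div_add_mod a' q
    rw [ha.2] at h1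
    rw [ha'.2] at h2
    have h1' : (a : ℤ) = q * ((a / q : ℕ) : ℤ) + r := by exact_mod_cast h1.symm
    have h2' : (a' : ℤ) = q * ((a' / q : ℕ) : ℤ) + r' := by exact_mod_cast h2.symm
    have h3 : (t : ℤ) = ((a / q : ℕ) : ℤ) + 1 := by exact_mod_cast hat.symm
    have h4 : (t' : ℤ) = ((a' / q : ℕ) : ℤ) + 1 := by exact_mod_cast hat'.symm
    rw [hd, hm, h3, h4]
    linear_combination h1' - h2'
  have hq2d : ((q2 X S : ℕ) : ℤ) ∣ d := by
    rw [hdm]
    apply dvd_add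
    · rw [hm]
      exact (Nat.modEq_iff_dvd).mp hrr.symm
    · apply Dvd.dvd.mul_right
      rw [hq]
      push_cast
      exact dvd_mul_right _ _
  -- every shift is covered
  have hC : ∀ j : ℕ, 1 ≤ j → j ≤ J → ∀ h : ℤ, |h| ≤ L → ∃ p : ℕ, p.Prime ∧
      (p : ℝ) ≤ X ^ (1 / 10000 : ℝ) ∧ (p : ℤ) ∣ (j : ℤ) * d + h := by
    intro j hj1 hj2 h hh
    by_cases h1 : (j, h) ∈ KB (Real.log X / 10) S J L
    · by_cases h2 : (j, h) ∈ KS
      · obtain ⟨p, hp, hpl, hpz, hpd⟩ := hk ⟨(j, h), h2⟩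
        refine ⟨p, hp, hpz, ?_⟩
        have h3 := resf_dvd q m KS p ⟨(j, h), h2⟩ hp (hnd p hp hpl (j, h) h1)
        have h4 := dvd_add (Dvd.dvd.mul_left hpd ((j : ℤ) * q)) h3
        have h5 : (j : ℤ) * q * ((t : ℤ) - t' - resf q m KS p ⟨(j, h), h2⟩) +
            (((j : ℤ) * q) * resf q m KS p ⟨(j, h), h2⟩ + ((j : ℤ) * m + h)) = (j : ℤ) * d + h := by
          rw [hdm]
          ring
        rwa [h5] at h4
      · have h3 : ∃ p ∈ S, (p : ℤ) ∣ (j : ℤ) * m + h := by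
          by_contra hcon
          push Not at hcon
          apply h2
          rw [hKS]
          unfold UU
          exact mem_filter.mpr ⟨h1, fun p hp => hcon p hp⟩
        obtain ⟨p, hpS, hpd⟩ := h3
        refine ⟨p, (hS p hpS).1, (hS p hpS).2.2.trans e5, ?_⟩
        have h4 : (p : ℤ) ∣ (q : ℤ) := by
          rw [hq]
          have : p ∣ q2 X S * ∏ p ∈ S, p := Dvd.dvd.mul_left (dvd_prod_of_mem _ hpS) _
          exact_mod_cast this
        have h5 := dvd_add hpd (Dvd.dvd.mul_right h4 ((j : ℤ) * ((t : ℤ) - t')))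
        have h6 : (j : ℤ) * m + h + q * ((j : ℤ) * ((t : ℤ) - t')) = (j : ℤ) * d + h := by
          rw [hdm]
          ring
        rwa [h6] at h5
    · have h3 : ∃ p : ℕ, p.Prime ∧ (p : ℝ) ≤ Real.log X / 10 ∧ p ∉ S ∧ (p : ℤ) ∣ h := by
        by_contra hcon
        push Not at hcon
        apply h1
        unfold KB
        rw [mem_filter, mem_product, mem_Icc, mem_Icc]
        exact ⟨⟨⟨hj1, hj2⟩, (abs_le.mp hh).1, (abs_le.mp hh).2⟩, fun p hp hpy hpS => hcon p hp hpy hpS⟩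
      obtain ⟨p, hp, hpy, hpS, hpd⟩ := h3
      refine ⟨p, hp, hpy.trans e5, ?_⟩
      have h4 : (p : ℤ) ∣ ((q2 X S : ℕ) : ℤ) := by
        have : p ∣ q2 X S := by
          unfold q2 P2
          apply Dvd.dvd.mul_left
          apply dvd_prod_of_mem (fun p => p)
          rw [mem_filter, mem_range]
          refine ⟨?_, hp, hpS⟩
          have := Nat.le_floor hpy
          omega
        exact_mod_cast this
      exact dvd_add (Dvd.dvd.mul_left (h4.trans hq2d) _) hpd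
  have hd0 : d ≠ 0 := by
    intro h0
    obtain ⟨p, hp, _, hpd⟩ := hC 1 le_rfl hJ 1 (by rw [abs_one]; exact_mod_cast hL1)
    rw [h0, mul_zero, zero_add] at hpd
    have : p ∣ 1 := by exact_mod_cast hpd
    exact hp.one_lt.ne' (Nat.dvd_one.mp this)
  have hdbig : X ^ (1 / 200 : ℝ) ≤ |(d : ℝ)| := by
    refine k1.trans ?_
    have h1 : ((2 ^ kk X : ℕ) : ℤ) ∣ d := by
      refine dvd_trans ?_ hq2d
      unfold q2
      push_cast
      exact dvd_mul_right _ _
    have h2 : ((2 ^ kk X : ℕ) : ℤ) ≤ |d| := Int.le_of_dvd (abs_pos.mpr hd0) ((dvd_abs _ _).mpr h1)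
    have h3 : (((2 ^ kk X : ℕ) : ℤ) : ℝ) ≤ ((|d| : ℤ) : ℝ) := by exact_mod_cast h2
    rw [Int.cast_abs] at h3
    refine le_trans (le_of_eq ?_) h3
    push_cast
    rfl
  -- distance from the primes
  have hfin : ∀ j : ℕ, 1 ≤ j → j ≤ J → ∀ p : ℕ, p.Prime → ∀ e : ℤ, (e = 1 ∨ e = -1) →
      0 < e * d → (L : ℝ) < |(p : ℝ) - j * ((e * d : ℤ) : ℝ)| := by
    intro j hj1 hj2 p hp e he hed
    by_contra hcon
    push Not at hcon
    have hjr : (1 : ℝ) ≤ j := by exact_mod_cast hj1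
    have h1 : |(p : ℤ) - j * (e * d)| ≤ L := by
      have : ((|(p : ℤ) - j * (e * d)| : ℤ) : ℝ) ≤ ((L : ℤ) : ℝ) := by
        rw [Int.cast_abs]
        push_cast
        push_cast at hcon
        exact hcon
      exact_mod_cast this
    have h2 : |e * ((p : ℤ) - j * (e * d))| ≤ L := by
      rw [abs_mul]
      rcases he with rfl | rfl
      · simpa using h1
      · simpa using h1
    obtain ⟨π, hπ, hπz, hπd⟩ := hC j hj1 hj2 _ h2
    have h3 : (j : ℤ) * d + e * ((p : ℤ) - j * (e * d)) = e * p := by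
      rcases he with rfl | rfl
      · ring
      · ring
    rw [h3] at hπd
    have h4 : (π : ℤ) ∣ (p : ℤ) := by
      rcases he with rfl | rfl
      · simpa using hπd
      · simpa using hπd
    have h5 : π = p := (Nat.prime_dvd_prime_iff_eq hπ hp).mp (by exact_mod_cast h4)
    have h6 : |(d : ℝ)| = ((e * d : ℤ) : ℝ) := by
      have : |d| = e * d := by
        rcases he with rfl | rfl
        · rw [one_mul] at hed ⊢
          exact abs_of_pos hed
        · have : d < 0 := by linarith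
          rw [abs_of_neg this]
          ring
      rw [← this, Int.cast_abs]
    have h7 : (p : ℝ) ≤ X ^ (1 / 10000 : ℝ) := by rw [← h5]; exact hπz
    have h8 := (abs_le.mp hcon).1
    have h9 : |(d : ℝ)| ≤ j * |(d : ℝ)| := by
      have := abs_nonneg (d : ℝ)
      nlinarith
    rw [← h6] at h8
    linarith
  rcases lt_or_gt_of_ne hd0 with hneg | hposd
  · refine ⟨a', ha'.1, a, ha.1, ?_, ?_⟩
    · rw [hd] at hneg
      omega
    · intro j hj p hp
      rw [mem_Icc] at hj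
      have := hfin j hj.1 hj.2 p hp (-1) (Or.inr rfl) (by linarith)
      have e : (((-1 : ℤ) * d : ℤ) : ℝ) = (a' : ℝ) - a := by
        rw [hd]
        push_cast
        ring
      rw [e] at this
      exact this
  · refine ⟨a, ha.1, a', ha'.1, ?_, ?_⟩
    · rw [hd] at hposd
      omega
    · intro j hj p hp
      rw [mem_Icc] at hj
      have := hfin j hj.1 hj.2 p hp 1 (Or.inl rfl) (by linarith)
      have e : (((1 : ℤ) * d : ℤ) : ℝ) = (a : ℝ) - a' := by
        rw [hd]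
        push_cast
        ring
      rw [e] at this
      exact this

end Pool.Agent.U642.DS
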